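import Mathlib

/-! closed forms through telescoping -/

set_option autoImplicit false
set_option linter.unusedVariables false

namespace Pool.Agent.N926.F37

open Finset

/-- the summand -/
def tm (m : ℚ) (k : ℕ) : ℚ := (∏ j ∈ range (2*k), ((j:ℚ) - m)) / ((k.factorial : ℚ) * ∏ j ∈ range k, (2 - 2*m + 3*(j:ℚ)))

/-- companion -/
def Uc (m : ℚ) (k : ℕ) : ℚ := (∏ j ∈ range (2*k-3), ((j:ℚ) - m)) / ((k.factorial : ℚ) * ∏ j ∈ range (k-1), (2 - 2*m + 3*(j:ℚ)))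

theorem prod_shift3 (m : ℚ) (n : ℕ) : ∏ j ∈ range (n+3), ((j:ℚ) - (m+3)) = -((m+3)*(m+2)*(m+1)) * ∏ j ∈ range n, ((j:ℚ) - m) := by
  rw [prod_range_succ', prod_range_succ', prod_range_succ']
  have : ∏ k ∈ range n, (((k+1+1+1:ℕ):ℚ) - (m+3)) = ∏ j ∈ range n, ((j:ℚ) - m) := by
    refine prod_congr rfl fun k _ => ?_
    push_cast; ring
  rw [this]
  push_cast
  ring

theorem prod_shift2 (m : ℚ) (n : ℕ) : ∏ j ∈ range (n+2), (2 - 2*(m+3) + 3*(j:ℚ)) = (2*(m+2))*(2*m+1) * ∏ j ∈ range n, (2 - 2*m + 3*(j:ℚ)) := by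
  rw [prod_range_succ', prod_range_succ']
  have : ∏ k ∈ range n, (2 - 2*(m+3) + 3*((k+1+1:ℕ):ℚ)) = ∏ j ∈ range n, (2 - 2*m + 3*(j:ℚ)) := by
    refine prod_congr rfl fun k _ => ?_
    push_cast; ring
  rw [this]
  push_cast
  ring

section
variable {m : ℚ} {k : ℕ}

theorem tm_zero (m : ℚ) : tm m 0 = 1 := by unfold tm; simp

theorem tm_one (m : ℚ) : tm m 1 = m*(m-1)/(2-2*m) := by
  unfold tm
  simp [prod_range_succ]
  ring

theorem tm_U (hk : 2 ≤ k) (h3 : 3*(k:ℚ)-1-2*m ≠ 0) :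
    (3*k-1-2*m) * tm m k = Uc m k * ((2*k-3-m)*(2*k-2-m)*(2*k-1-m)) := by
  obtain ⟨l, rfl⟩ : ∃ l, k = l+2 := ⟨k-2, by omega⟩
  unfold tm Uc
  rw [show 2*(l+2) = (2*l+1)+1+1+1 by ring, show (2*l+1)+1+1+1-3 = 2*l+1 by omega, show l+2-1 = l+1 by omega,
    prod_range_succ, prod_range_succ, prod_range_succ, show l+2 = l+1+1 by ring, prod_range_succ _ (l+1)]
  push_cast at h3 ⊢
  have e : (2 - 2*m + 3*((l:ℚ)+1)) = (3*((l:ℚ)+2)-1-2*m) := by ring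
  have e' : (3*((l:ℚ)+1+1)-1-2*m) = (3*((l:ℚ)+2)-1-2*m) := by ring
  rw [e, e']
  generalize ∏ j ∈ range (l+1), (2 - 2*m + 3*(j:ℚ)) = x
  generalize ∏ j ∈ range (2*l+1), ((j:ℚ) - m) = y
  generalize (3*((l:ℚ)+2)-1-2*m) = D at *
  generalize ((l+1+1).factorial : ℚ) = f
  rw [mul_div_assoc', div_mul_eq_mul_div, show f * (x * D) = D * (f * x) by ring, mul_div_mul_left _ _ h3]
  congr 1
  ring

theorem tm3_U (hk : 2 ≤ k) (h1 : m + 2 ≠ 0) (h2 : 2*m+1 ≠ 0) (h3 : 3*(k:ℚ)-4-2*m ≠ 0) :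
    2*(2*m+1)*tm (m+3) k = Uc m k * (-((m+1)*(m+3)*(3*k-4-2*m))) := by
  obtain ⟨l, rfl⟩ : ∃ l, k = l+2 := ⟨k-2, by omega⟩
  unfold tm Uc
  rw [show 2*(l+2) = (2*l+1)+3 by ring, prod_shift3, show (2*l+1)+3-3 = 2*l+1 by omega, show l+2-1 = l+1 by omega, prod_shift2,
    prod_range_succ _ l]
  push_cast at h3 ⊢
  have e : (2 - 2*m + 3*(l:ℚ)) = 3*((l:ℚ)+2)-4-2*m := by ring
  rw [e]
  generalize (3*((l:ℚ)+2)-4-2*m) = D at *
  generalize ∏ j ∈ range l, (2 - 2*m + 3*(j:ℚ)) = x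
  generalize ∏ j ∈ range (2*l+1), ((j:ℚ) - m) = y
  have hf : ((l+2).factorial : ℚ) ≠ 0 := by positivity
  generalize ((l+2).factorial : ℚ) = f at *
  by_cases hx : x = 0
  · rw [hx]; simp
  · field_simp

theorem U_succ (hk : 2 ≤ k) (h3 : 3*(k:ℚ)-1-2*m ≠ 0) :
    ((k:ℚ)+1)*((3*k-1-2*m)*Uc m (k+1)) = Uc m k * ((2*k-3-m)*(2*k-2-m)) := by
  obtain ⟨l, rfl⟩ : ∃ l, k = l+2 := ⟨k-2, by omega⟩
  unfold Uc
  rw [show 2*(l+2+1)-3 = (2*l+1)+1+1 by omega, show 2*(l+2)-3 = 2*l+1 by omega, show l+2+1-1 = (l+1)+1 by omega,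
    show l+2-1 = l+1 by omega, prod_range_succ _ ((2*l+1)+1), prod_range_succ _ (2*l+1), prod_range_succ _ (l+1),
    Nat.factorial_succ (l+2)]
  push_cast at h3 ⊢
  have e : (2 - 2*m + 3*((l:ℚ)+1)) = 3*((l:ℚ)+2)-1-2*m := by ring
  rw [e]
  generalize ∏ j ∈ range (l+1), (2 - 2*m + 3*(j:ℚ)) = x
  generalize ∏ j ∈ range (2*l+1), ((j:ℚ) - m) = y
  generalize (3*((l:ℚ)+2)-1-2*m) = D at *
  have hf : ((l+2).factorial : ℚ) ≠ 0 := by positivity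
  have hl : ((l:ℚ)+2+1) ≠ 0 := by positivity
  generalize ((l+2).factorial : ℚ) = f at *
  by_cases hx : x = 0
  · rw [hx]; simp
  · field_simp
    ring

end

/-- the certificate for `N` -/
def qN (m k : ℚ) : ℚ := 8*k^4-(21*m+50)*k^3+(18*m^2+93*m+112)*k^2-(5*m^3+48*m^2+131*m+108)*k+(m+2)*(5*m^2+20*m+19)
def sN (m k : ℚ) : ℚ := (m+1)*(m+3)/(2*(2*m+1)*(m+2)) * qN m k

def GN (m : ℚ) (k : ℕ) : ℚ := if k = 0 then 0 else if k = 1 then sN m 1 * (-1/(m+1)) / ((m+2)*(m+1)*m) else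
  k * sN m k * Uc m k / ((m+3-k)*(m+2-k)*(m+1-k))

def sF (m k : ℚ) : ℚ := (m+1)*(8*k-5*m-11)/(2*(2*m+1))
def GF (m : ℚ) (k : ℕ) : ℚ := if k = 0 then 0 else if k = 1 then sF m 1 * (-1/(m+1)) else k * sF m k * Uc m k
def sL (m k : ℚ) : ℚ := (m+3)/(2*(2*m+1))*(-8*k^2+(13*m+25)*k-(5*m^2+20*m+19))
def GLc (m : ℚ) (k : ℕ) : ℚ := if k = 0 then 0 else if k = 1 then sL m 1 * (-1/(m+1)) else k * sL m k * Uc m k

section
variable {m : ℚ} {k : ℕ}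

theorem Uc_two (m : ℚ) : Uc m 2 = -m/(2*(2-2*m)) := by
  unfold Uc
  simp [Nat.factorial]

theorem stepF (hm : 0 ≤ m) (hm1 : m ≠ 1) (h3 : 3*(k:ℚ)-1-2*m ≠ 0) (h4 : 3*(k:ℚ)-4-2*m ≠ 0) :
    tm (m+3) k + (m+1)/(2*(2*m+1)) * tm m k = GF m (k+1) - GF m k := by
  have a1 : m + 1 ≠ 0 := by linarith
  have a2 : m + 2 ≠ 0 := by linarith
  have a3 : 2*m+1 ≠ 0 := by linarith
  have b1 : 1 - m ≠ 0 := by intro h; first | (apply hm1; linarith) | linarith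
  rcases Nat.lt_or_ge k 2 with h | h
  · interval_cases k
    · unfold GF sF
      rw [tm_zero, tm_zero]
      simp
      field_simp
      ring
    · unfold GF sF
      rw [tm_one, tm_one]
      norm_num
      rw [Uc_two, show (2 - 2*m) = 2*(1-m) by ring, show 2 - 2*(m+3) = -(2*(m+2)) by ring]
      field_simp
      ring
  · have e3 := tm3_U h a2 a3 h4
    have e0 := tm_U h h3
    have e1 := U_succ h h3
    unfold GF sF
    rw [if_neg (by omega), if_neg (by omega), if_neg (by omega), if_neg (by omega)]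
    push_cast
    have hD : (3*(k:ℚ)-1-2*m) * (2*(2*m+1)) ≠ 0 := mul_ne_zero h3 (by positivity)
    refine mul_left_cancel₀ hD ?_
    generalize tm (m+3) k = t3 at *
    generalize tm m k = t0 at *
    generalize Uc m (k+1) = u1 at *
    generalize Uc m k = u0 at *
    have f1 : (3*(k:ℚ)-1-2*m) * (2*(2*m+1)) * (t3 + (m+1)/(2*(2*m+1)) * t0) =
      (3*(k:ℚ)-1-2*m) * (2*(2*m+1)*t3) + (m+1)*((3*(k:ℚ)-1-2*m)*t0) := by field_simp
    have f2 : (3*(k:ℚ)-1-2*m) * (2*(2*m+1)) * ((k+1) * ((m+1)*(8*(k+1)-5*m-11)/(2*(2*m+1))) * u1 -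
        k*((m+1)*(8*k-5*m-11)/(2*(2*m+1)))*u0) =
      (m+1)*(8*(k+1)-5*m-11)*((k+1)*((3*(k:ℚ)-1-2*m)*u1)) - (m+1)*(8*k-5*m-11)*k*(3*(k:ℚ)-1-2*m)*u0 := by
      field_simp
    rw [f1, f2, e3, e0, e1]
    ring

theorem stepL (hm : 0 ≤ m) (hm1 : m ≠ 1) (h3 : 3*(k:ℚ)-1-2*m ≠ 0) (h4 : 3*(k:ℚ)-4-2*m ≠ 0) :
    (m+3-k) * tm (m+3) k + (m+3)/(2*(2*m+1)) * ((m-k) * tm m k) = GLc m (k+1) - GLc m k := by
  have a1 : m + 1 ≠ 0 := by linarith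
  have a2 : m + 2 ≠ 0 := by linarith
  have a3 : 2*m+1 ≠ 0 := by linarith
  have b1 : 1 - m ≠ 0 := by intro h; first | (apply hm1; linarith) | linarith
  rcases Nat.lt_or_ge k 2 with h | h
  · interval_cases k
    · unfold GLc sL
      rw [tm_zero, tm_zero]
      simp
      field_simp
      ring
    · unfold GLc sL
      rw [tm_one, tm_one]
      norm_num
      rw [Uc_two, show (2 - 2*m) = 2*(1-m) by ring, show 2 - 2*(m+3) = -(2*(m+2)) by ring]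
      field_simp
      ring
  · have e3 := tm3_U h a2 a3 h4
    have e0 := tm_U h h3
    have e1 := U_succ h h3
    unfold GLc sL
    rw [if_neg (by omega), if_neg (by omega), if_neg (by omega), if_neg (by omega)]
    push_cast
    have hD : (3*(k:ℚ)-1-2*m) * (2*(2*m+1)) ≠ 0 := mul_ne_zero h3 (by positivity)
    refine mul_left_cancel₀ hD ?_
    generalize tm (m+3) k = t3 at *
    generalize tm m k = t0 at *
    generalize Uc m (k+1) = u1 at *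
    generalize Uc m k = u0 at *
    have f1 : (3*(k:ℚ)-1-2*m) * (2*(2*m+1)) * ((m+3-k)*t3 + (m+3)/(2*(2*m+1)) * ((m-k)*t0)) =
      (m+3-k)*((3*(k:ℚ)-1-2*m) * (2*(2*m+1)*t3)) + (m+3)*(m-k)*((3*(k:ℚ)-1-2*m)*t0) := by field_simp
    have f2 : (3*(k:ℚ)-1-2*m) * (2*(2*m+1)) * ((k+1) * ((m+3)/(2*(2*m+1))*(-8*(k+1)^2+(13*m+25)*(k+1)-(5*m^2+20*m+19))) * u1 -
        k*((m+3)/(2*(2*m+1))*(-8*k^2+(13*m+25)*k-(5*m^2+20*m+19)))*u0) =
      (m+3)*(-8*(k+1)^2+(13*m+25)*(k+1)-(5*m^2+20*m+19))*((k+1)*((3*(k:ℚ)-1-2*m)*u1)) -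
        (m+3)*(-8*k^2+(13*m+25)*k-(5*m^2+20*m+19))*k*(3*(k:ℚ)-1-2*m)*u0 := by
      field_simp
    rw [f1, f2, e3, e0, e1]
    ring

theorem stepN (hm : 5 ≤ m) (hk : (k:ℚ) < m) (h3 : 3*(k:ℚ)-1-2*m ≠ 0) (h4 : 3*(k:ℚ)-4-2*m ≠ 0) :
    k/(m+3-k) * tm (m+3) k + (m+1)*(m+3)/(2*(2*m+1)*(m+2)) * (k/(m-k) * tm m k) = GN m (k+1) - GN m k := by
  have a0 : m ≠ 0 := by linarith
  have a1 : m + 1 ≠ 0 := by linarith
  have a2 : m + 2 ≠ 0 := by linarith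
  have a3 : 2*m+1 ≠ 0 := by linarith
  have b1 : 1 - m ≠ 0 := by intro h; first | (apply hm1; linarith) | linarith
  rcases Nat.lt_or_ge k 2 with h | h
  · interval_cases k
    · unfold GN sN qN
      have e : (8 - (21*m+50) + (18*m^2+93*m+112) - (5*m^3+48*m^2+131*m+108) + (m+2)*(5*m^2+20*m+19)) = (0:ℚ) := by ring
      simp
      rw [e]
      simp
    · unfold GN sN qN
      rw [tm_one, tm_one]
      norm_num
      have b5 : m - 1 ≠ 0 := by linarith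
      rw [Uc_two, show (2 - 2*m) = 2*(1-m) by ring, show 2 - 2*(m+3) = -(2*(m+2)) by ring, show m+3-1 = m+2 by ring, show m+3-2 = m+1 by ring, show m+1-2 = m-1 by ring]
      field_simp
      ring
  · have e3 := tm3_U h a2 a3 h4
    have e0 := tm_U h h3
    have e1 := U_succ h h3
    unfold GN sN
    rw [if_neg (by omega), if_neg (by omega), if_neg (by omega), if_neg (by omega)]
    push_cast
    have c0 : m - k ≠ 0 := by intro h; linarith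
    have c1 : m + 1 - k ≠ 0 := by intro h; linarith
    have c2 : m + 2 - k ≠ 0 := by intro h; linarith
    have c3 : m + 3 - k ≠ 0 := by intro h; linarith
    rw [show m + 3 - ((k:ℚ)+1) = m+2-k by ring, show m + 2 - ((k:ℚ)+1) = m+1-k by ring, show m + 1 - ((k:ℚ)+1) = m-k by ring]
    have hD : (3*(k:ℚ)-1-2*m) * (2*(2*m+1)*(m+2)) ≠ 0 := mul_ne_zero h3 (by positivity)
    refine mul_left_cancel₀ hD ?_
    generalize tm (m+3) k = t3 at *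
    generalize tm m k = t0 at *
    generalize Uc m (k+1) = u1 at *
    generalize Uc m k = u0 at *
    have f1 : (3*(k:ℚ)-1-2*m) * (2*(2*m+1)*(m+2)) * (k/(m+3-k) * t3 + (m+1)*(m+3)/(2*(2*m+1)*(m+2)) * (k/(m-k) * t0)) =
      (k*(m+2)*((3*(k:ℚ)-1-2*m)*(2*(2*m+1)*t3)))/(m+3-k) + ((m+1)*(m+3)*k*((3*k-1-2*m)*t0))/(m-k) := by
      field_simp
    have f2 : (3*(k:ℚ)-1-2*m) * (2*(2*m+1)*(m+2)) * ((k+1) * ((m+1)*(m+3)/(2*(2*m+1)*(m+2)) * qN m (k+1)) * u1/((m+2-k)*(m+1-k)*(m-k)) -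
        k * ((m+1)*(m+3)/(2*(2*m+1)*(m+2)) * qN m k) * u0/((m+3-k)*(m+2-k)*(m+1-k))) =
      ((m+1)*(m+3)*qN m (k+1) * ((k+1)*((3*k-1-2*m)*u1)))/((m+2-k)*(m+1-k)*(m-k)) -
      ((m+1)*(m+3)*qN m k * (k*((3*k-1-2*m)*u0)))/((m+3-k)*(m+2-k)*(m+1-k)) := by
      field_simp
    rw [f1, f2, e3, e0, e1]
    unfold qN
    field_simp
    ring

end

end Pool.Agent.N926.F37
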