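import Pool.Agent.N926.F37.A

/-! closed forms for natural `m` -/

set_option autoImplicit false
set_option linter.unusedVariables false

namespace Pool.Agent.N926.F37

open Finset

theorem tm_van {m k : ℕ} (h : m < 2*k) : tm (m:ℚ) k = 0 := by
  unfold tm
  rw [prod_eq_zero (mem_range.2 h) (by simp), zero_div]

theorem Uc_van {m k : ℕ} (h : m < 2*k-3) : Uc (m:ℚ) k = 0 := by
  unfold Uc
  rw [prod_eq_zero (mem_range.2 h) (by simp), zero_div]

def FF (m : ℕ) : ℚ := ∑ k ∈ range (m/2+1), tm (m:ℚ) k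
def LL (m : ℕ) : ℚ := ∑ k ∈ range (m/2+1), ((m:ℚ)-k) * tm (m:ℚ) k
def NN (m : ℕ) : ℚ := ∑ k ∈ range (m/2+1), (k:ℚ)/((m:ℚ)-k) * tm (m:ℚ) k

theorem ext_sum {m K : ℕ} (hK : m/2+1 ≤ K) (w : ℕ → ℚ) :
    ∑ k ∈ range K, w k * tm (m:ℚ) k = ∑ k ∈ range (m/2+1), w k * tm (m:ℚ) k := by
  symm
  apply sum_subset
  · intro k hk
    rw [mem_range] at hk ⊢
    omega
  · intro k _ hk2
    rw [mem_range] at hk2
    rw [tm_van (by omega), mul_zero]

theorem good {m k : ℕ} (hm : m % 3 ≠ 1 ∨ 10 ≤ m) (hk : k < (m+3)/2+1) :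
    3*(k:ℚ)-1-2*m ≠ 0 ∧ 3*(k:ℚ)-4-2*m ≠ 0 := by
  constructor
  · intro h
    have h2 : 3*k = 2*m+1 := by
      have : (3*(k:ℚ)) = 2*m+1 := by linarith
      exact_mod_cast this
    omega
  · intro h
    have h2 : 3*k = 2*m+4 := by
      have : (3*(k:ℚ)) = 2*m+4 := by linarith
      exact_mod_cast this
    omega

theorem FF_rec {m : ℕ} (hm : m % 3 ≠ 1 ∨ 10 ≤ m) : FF (m+3) = -((m:ℚ)+1)/(2*(2*m+1)) * FF m := by
  have h : ∑ k ∈ range ((m+3)/2+1), (tm ((m:ℚ)+3) k + ((m:ℚ)+1)/(2*(2*m+1)) * tm m k) =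
      GF m ((m+3)/2+1) - GF m 0 := by
    rw [← sum_range_sub]
    refine sum_congr rfl fun k hk => ?_
    rw [mem_range] at hk
    obtain ⟨g1, g2⟩ := good hm hk
    refine stepF (by positivity) ?_ g1 g2
    intro h1
    have : m = 1 := by exact_mod_cast h1
    omega
  have g0 : GF m 0 = 0 := by unfold GF; simp
  have gK : GF m ((m+3)/2+1) = 0 := by
    unfold GF
    rw [if_neg (by omega), if_neg (by omega), Uc_van (by omega), mul_zero]
  rw [g0, gK, sum_add_distrib, ← mul_sum] at h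
  have e1 : ∑ k ∈ range ((m+3)/2+1), tm ((m:ℚ)+3) k = FF (m+3) := by
    unfold FF
    push_cast
    rfl
  have e2 : ∑ k ∈ range ((m+3)/2+1), tm (m:ℚ) k = FF m := by
    have := ext_sum (m := m) (K := (m+3)/2+1) (by omega) (fun _ => 1)
    simp only [one_mul] at this
    exact this
  rw [e1, e2] at h
  have : (2*(2*(m:ℚ)+1)) ≠ 0 := by positivity
  field_simp at h ⊢
  linear_combination h

theorem LL_rec {m : ℕ} (hm : m % 3 ≠ 1 ∨ 10 ≤ m) : LL (m+3) = -((m:ℚ)+3)/(2*(2*m+1)) * LL m := by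
  have h : ∑ k ∈ range ((m+3)/2+1), (((m:ℚ)+3-k) * tm ((m:ℚ)+3) k + ((m:ℚ)+3)/(2*(2*m+1)) * (((m:ℚ)-k) * tm m k)) =
      GLc m ((m+3)/2+1) - GLc m 0 := by
    rw [← sum_range_sub]
    refine sum_congr rfl fun k hk => ?_
    rw [mem_range] at hk
    obtain ⟨g1, g2⟩ := good hm hk
    refine stepL (by positivity) ?_ g1 g2
    intro h1
    have : m = 1 := by exact_mod_cast h1
    omega
  have g0 : GLc m 0 = 0 := by unfold GLc; simp
  have gK : GLc m ((m+3)/2+1) = 0 := by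
    unfold GLc
    rw [if_neg (by omega), if_neg (by omega), Uc_van (by omega), mul_zero]
  rw [g0, gK, sum_add_distrib, ← mul_sum] at h
  have e1 : ∑ k ∈ range ((m+3)/2+1), ((m:ℚ)+3-k) * tm ((m:ℚ)+3) k = LL (m+3) := by
    unfold LL
    push_cast
    rfl
  have e2 : ∑ k ∈ range ((m+3)/2+1), ((m:ℚ)-k) * tm (m:ℚ) k = LL m :=
    ext_sum (m := m) (K := (m+3)/2+1) (by omega) (fun k => (m:ℚ)-k)
  rw [e1, e2] at h
  have : (2*(2*(m:ℚ)+1)) ≠ 0 := by positivity
  field_simp at h ⊢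
  linear_combination h

theorem NN_rec {m : ℕ} (hm : m % 3 ≠ 1 ∨ 10 ≤ m) (h5 : 5 ≤ m) :
    NN (m+3) = -(((m:ℚ)+1)*(m+3))/(2*(2*m+1)*(m+2)) * NN m := by
  have h : ∑ k ∈ range ((m+3)/2+1), ((k:ℚ)/((m:ℚ)+3-k) * tm ((m:ℚ)+3) k +
      ((m:ℚ)+1)*(m+3)/(2*(2*m+1)*(m+2)) * ((k:ℚ)/((m:ℚ)-k) * tm m k)) =
      GN m ((m+3)/2+1) - GN m 0 := by
    rw [← sum_range_sub]
    refine sum_congr rfl fun k hk => ?_
    rw [mem_range] at hk
    obtain ⟨g1, g2⟩ := good hm hk
    refine stepN (by exact_mod_cast h5) ?_ g1 g2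
    have : k < m := by omega
    exact_mod_cast this
  have g0 : GN m 0 = 0 := by unfold GN; simp
  have gK : GN m ((m+3)/2+1) = 0 := by
    unfold GN
    rw [if_neg (by omega), if_neg (by omega), Uc_van (by omega)]
    simp
  rw [g0, gK, sum_add_distrib, ← mul_sum] at h
  have e1 : ∑ k ∈ range ((m+3)/2+1), (k:ℚ)/((m:ℚ)+3-k) * tm ((m:ℚ)+3) k = NN (m+3) := by
    unfold NN
    push_cast
    rfl
  have e2 : ∑ k ∈ range ((m+3)/2+1), (k:ℚ)/((m:ℚ)-k) * tm (m:ℚ) k = NN m :=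
    ext_sum (m := m) (K := (m+3)/2+1) (by omega) (fun k => (k:ℚ)/((m:ℚ)-k))
  rw [e1, e2] at h
  have : (2*(2*(m:ℚ)+1)*((m:ℚ)+2)) ≠ 0 := by positivity
  field_simp at h ⊢
  linear_combination h

/-! values -/

theorem FF0 (i : ℕ) : FF (3*i) = ∏ l ∈ range i, (-(3*(l:ℚ)+1)/(2*(6*l+1))) := by
  induction i with
  | zero => simp [FF, tm_zero]
  | succ i ih =>
    rw [show 3*(i+1) = 3*i+3 by ring, FF_rec (Or.inl (by omega)), ih, prod_range_succ]
    push_cast
    rw [mul_comm]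
    congr 2
    ring

theorem FF2 (i : ℕ) : FF (3*i+2) = 0 := by
  induction i with
  | zero =>
    unfold FF tm
    simp [sum_range_succ, prod_range_succ]
    norm_num
  | succ i ih =>
    rw [show 3*(i+1)+2 = 3*i+2+3 by ring, FF_rec (Or.inl (by omega)), ih, mul_zero]

theorem LL0 (i : ℕ) : LL (3*i) = 0 := by
  induction i with
  | zero =>
    unfold LL
    simp
  | succ i ih =>
    rw [show 3*(i+1) = 3*i+3 by ring, LL_rec (Or.inl (by omega)), ih, mul_zero]

theorem FF1 (i : ℕ) : FF (3*i+1) = ∏ l ∈ range i, (-(3*(l:ℚ)+2)/(6*(2*l+1))) := by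
  induction i using Nat.strong_induction_on with
  | _ i ih =>
    rcases Nat.lt_or_ge i 4 with h | h
    · interval_cases i <;> (unfold FF tm; simp [sum_range_succ, prod_range_succ, Nat.factorial]; try norm_num)
    · obtain ⟨j, rfl⟩ : ∃ j, i = j+1 := ⟨i-1, by omega⟩
      rw [show 3*(j+1)+1 = 3*j+1+3 by ring, FF_rec (Or.inr (by omega)), ih j (by omega), prod_range_succ]
      push_cast
      rw [mul_comm]
      congr 2
      · ring
      · ring

theorem LL1 (i : ℕ) : LL (3*i+1) = ∏ l ∈ range i, (-(3*(l:ℚ)+4)/(6*(2*l+1))) := by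
  induction i using Nat.strong_induction_on with
  | _ i ih =>
    rcases Nat.lt_or_ge i 4 with h | h
    · interval_cases i <;> (unfold LL tm; simp [sum_range_succ, prod_range_succ, Nat.factorial]; try norm_num)
    · obtain ⟨j, rfl⟩ : ∃ j, i = j+1 := ⟨i-1, by omega⟩
      rw [show 3*(j+1)+1 = 3*j+1+3 by ring, LL_rec (Or.inr (by omega)), ih j (by omega), prod_range_succ]
      push_cast
      rw [mul_comm]
      congr 2
      · ring
      · ring

theorem NN1 (i : ℕ) : NN (3*i+1) = 0 := by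
  induction i using Nat.strong_induction_on with
  | _ i ih =>
    rcases Nat.lt_or_ge i 4 with h | h
    · interval_cases i <;> (unfold NN tm; simp [sum_range_succ, prod_range_succ, Nat.factorial]; try norm_num)
    · obtain ⟨j, rfl⟩ : ∃ j, i = j+1 := ⟨i-1, by omega⟩
      rw [show 3*(j+1)+1 = 3*j+1+3 by ring, NN_rec (Or.inr (by omega)) (by omega), ih j (by omega), mul_zero]

theorem NN0 (i : ℕ) (hi : 1 ≤ i) : NN (3*i) = ∏ l ∈ range i, (-(3*(3*(l:ℚ)+1)*(l+1))/(2*(6*l+1)*(3*l+2))) := by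
  induction i using Nat.strong_induction_on with
  | _ i ih =>
    rcases Nat.lt_or_ge i 3 with h | h
    · interval_cases i <;> (unfold NN tm; simp [sum_range_succ, prod_range_succ, Nat.factorial]; try norm_num)
    · obtain ⟨j, rfl⟩ : ∃ j, i = j+1 := ⟨i-1, by omega⟩
      rw [show 3*(j+1) = 3*j+3 by ring, NN_rec (Or.inl (by omega)) (by omega), ih j (by omega) (by omega), prod_range_succ]
      push_cast
      rw [mul_comm]
      congr 2
      · ring
      · ring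

theorem NN2 (i : ℕ) : NN (3*i+2) = -∏ l ∈ range i, (-(3*((l:ℚ)+1)*(3*l+5))/(2*(6*l+5)*(3*l+4))) := by
  induction i using Nat.strong_induction_on with
  | _ i ih =>
    rcases Nat.lt_or_ge i 2 with h | h
    · interval_cases i <;> (unfold NN tm; simp [sum_range_succ, prod_range_succ, Nat.factorial]; try norm_num)
    · obtain ⟨j, rfl⟩ : ∃ j, i = j+1 := ⟨i-1, by omega⟩
      rw [show 3*(j+1)+2 = 3*j+2+3 by ring, NN_rec (Or.inl (by omega)) (by omega), ih j (by omega), prod_range_succ,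
        mul_neg, mul_comm]
      push_cast
      congr 3
      · ring
      · ring

end Pool.Agent.N926.F37
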