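import Pool.Agent.N926.F37.B
import Pool.Agent.N926.F54.R

/-! three point extrapolation modulo `p^2` -/

set_option autoImplicit false
set_option linter.unusedVariables false
set_option linter.unusedSectionVars false

namespace Pool.Agent.N926.F37

open Finset Pool.Agent.N926.Sup2 Pool.Agent.N926.Sup Pool.Agent.N926.F54

/-- `b ≡ a + p l`, `c ≡ a + 3 p l` modulo `p^2` -/
def Q3 (p : ℕ) (a b c : ℚ) : Prop := ∃ l : ℚ, Dv p 0 l ∧ Dv p 0 a ∧ Dv p 2 (b - a - p*l) ∧ Dv p 2 (c - a - 3*p*l)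

section
variable {p : ℕ} [hp : Fact p.Prime]

theorem d3 : Dv p 0 (3:ℚ) := by simpa using Dv.nat (p := p) 3
theorem d2 : Dv p 0 (2:ℚ) := by simpa using Dv.nat (p := p) 2
theorem dp0 : Dv p 0 (p:ℚ) := Dv.nat p

theorem Q3.const {u : ℚ} (hu : Dv p 0 u) : Q3 p u u u := ⟨0, Dv.zero _, hu, by simpa using Dv.zero _, by simpa using Dv.zero _⟩

theorem Q3.aff {u v b c : ℚ} (hu : Dv p 0 u) (hv : Dv p 0 v) (hb : b = u + p*v) (hc : c = u + 3*p*v) : Q3 p u b c := by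
  subst hb hc
  refine ⟨v, hv, hu, ?_, ?_⟩
  · rw [show u + p*v - u - p*v = 0 by ring]; exact Dv.zero _
  · rw [show u + 3*p*v - u - 3*p*v = 0 by ring]; exact Dv.zero _

theorem Q3.b0 {a b c : ℚ} (h : Q3 p a b c) : Dv p 0 b ∧ Dv p 0 c := by
  obtain ⟨l, hl, ha, hb, hc⟩ := h
  constructor
  · have := ((hb.mono (by norm_num : (0:ℤ) ≤ 2)).add ha).add (dp0.mul0 hl)
    exact Dv_eq (by ring) this
  · have := ((hc.mono (by norm_num : (0:ℤ) ≤ 2)).add ha).add ((d3.mul0 dp0).mul0 hl)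
    exact Dv_eq (by ring) this

theorem Q3.mul {a b c a' b' c' : ℚ} (h : Q3 p a b c) (g : Q3 p a' b' c') : Q3 p (a*a') (b*b') (c*c') := by
  obtain ⟨hb0, hc0⟩ := h.b0
  obtain ⟨l, hl, ha, hb, hc⟩ := h
  obtain ⟨l', hl', ha', hb', hc'⟩ := g
  refine ⟨a*l'+a'*l, (ha.mul0 hl').add (ha'.mul0 hl), ha.mul0 ha', ?_, ?_⟩
  · -- b b' = b (a' + p l' + e')
    have k1 := hb'.mul0 hb0
    have k2 := hb.mul0 (ha'.add (dp0.mul0 hl'))
    have k3 : Dv p 2 ((p:ℚ)^2 * (l*l')) := (Dv.p_pow 2).mul0 (hl.mul0 hl')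
    refine Dv_eq ?_ ((k1.add k2).add k3)
    ring
  · have k1 := hc'.mul0 hc0
    have k2 := hc.mul0 (ha'.add ((d3.mul0 dp0).mul0 hl'))
    have k3 : Dv p 2 ((p:ℚ)^2 * (9*(l*l'))) := by
      have d9 : Dv p 0 (9:ℚ) := by simpa using Dv.nat (p := p) 9
      exact (Dv.p_pow 2).mul0 (d9.mul0 (hl.mul0 hl'))
    refine Dv_eq ?_ ((k1.add k2).add k3)
    ring

theorem Q3.add {a b c a' b' c' : ℚ} (h : Q3 p a b c) (g : Q3 p a' b' c') : Q3 p (a+a') (b+b') (c+c') := by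
  obtain ⟨l, hl, ha, hb, hc⟩ := h
  obtain ⟨l', hl', ha', hb', hc'⟩ := g
  refine ⟨l+l', hl.add hl', ha.add ha', Dv_eq (by ring) (hb.add hb'), Dv_eq (by ring) (hc.add hc')⟩

theorem Q3.sum {ι : Type*} (s : Finset ι) (f g k : ι → ℚ) (h : ∀ i ∈ s, Q3 p (f i) (g i) (k i)) :
    Q3 p (∑ i ∈ s, f i) (∑ i ∈ s, g i) (∑ i ∈ s, k i) := by
  classical
  induction s using Finset.induction_on with
  | empty => simpa using Q3.const (Dv.zero 0)
  | insert a s ha ih =>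
    rw [sum_insert ha, sum_insert ha, sum_insert ha]
    exact (h a (mem_insert_self _ _)).add (ih fun i hi => h i (mem_insert_of_mem hi))

theorem Q3.prod {ι : Type*} (s : Finset ι) (f g k : ι → ℚ) (h : ∀ i ∈ s, Q3 p (f i) (g i) (k i)) :
    Q3 p (∏ i ∈ s, f i) (∏ i ∈ s, g i) (∏ i ∈ s, k i) := by
  classical
  induction s using Finset.induction_on with
  | empty => simpa using Q3.const Dv.one
  | insert a s ha ih =>
    rw [prod_insert ha, prod_insert ha, prod_insert ha]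
    exact (h a (mem_insert_self _ _)).mul (ih fun i hi => h i (mem_insert_of_mem hi))

theorem inv_unit {a : ℚ} (ha0 : a ≠ 0) (ha : padicValRat p a = 0) : Dv p 0 a⁻¹ := by
  right
  rw [padicValRat.inv, ha]
  simp

theorem Q3.unit {a b c : ℚ} (h : Q3 p a b c) (ha0 : a ≠ 0) (ha : padicValRat p a = 0) :
    (b ≠ 0 ∧ padicValRat p b = 0) ∧ (c ≠ 0 ∧ padicValRat p c = 0) := by
  obtain ⟨l, hl, ha', hb, hc⟩ := h
  constructor
  · refine unit_of_cong (y := a) ?_ ha0 ha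
    exact Dv_eq (by ring) ((hb.mono (by norm_num : (1:ℤ) ≤ 2)).add ((Dv.p1 (p := p)).mul0 hl))
  · refine unit_of_cong (y := a) ?_ ha0 ha
    exact Dv_eq (by ring) ((hc.mono (by norm_num : (1:ℤ) ≤ 2)).add ((d3.mul0' (Dv.p1 (p := p))).mul0 hl))

theorem Q3.inv {a b c : ℚ} (h : Q3 p a b c) (ha0 : a ≠ 0) (ha : padicValRat p a = 0) : Q3 p a⁻¹ b⁻¹ c⁻¹ := by
  obtain ⟨⟨b0, vb⟩, ⟨c0, vc⟩⟩ := h.unit ha0 ha
  obtain ⟨l, hl, ha', hb, hc⟩ := h
  have ia := inv_unit ha0 ha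
  have ib := inv_unit b0 vb
  have ic := inv_unit c0 vc
  refine ⟨-l*a⁻¹*a⁻¹, (hl.neg.mul0 ia).mul0 ia, ia, ?_, ?_⟩
  · -- b⁻¹ - a⁻¹ + p l a⁻² = [a² - a b + p l b]/(a² b) ; b = a + p l + e
    have k1 : Dv p 2 ((b - a - p*l) * (p*l - a)) := hb.mul0 ((dp0.mul0 hl).sub ha')
    have k2 : Dv p 2 ((p:ℚ)^2 * (l*l)) := (Dv.p_pow 2).mul0 (hl.mul0 hl)
    have k3 := ((k1.add k2).mul0 (ia.mul0 (ia.mul0 ib)))
    refine Dv_eq ?_ k3
    field_simp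
    ring
  · have k1 : Dv p 2 ((c - a - 3*p*l) * (3*p*l - a)) := hc.mul0 (((d3.mul0 dp0).mul0 hl).sub ha')
    have k2 : Dv p 2 ((p:ℚ)^2 * (9*(l*l))) := by
      have d9 : Dv p 0 (9:ℚ) := by simpa using Dv.nat (p := p) 9
      exact (Dv.p_pow 2).mul0 (d9.mul0 (hl.mul0 hl))
    have k3 := ((k1.add k2).mul0 (ia.mul0 (ia.mul0 ic)))
    refine Dv_eq ?_ k3
    field_simp
    ring

theorem Q3.final {a b c : ℚ} (h : Q3 p a b c) : Dv p 2 (3*b - c - 2*a) := by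
  obtain ⟨l, hl, ha, hb, hc⟩ := h
  have := (smul_int 3 hb).sub hc
  refine Dv_eq ?_ this
  push_cast
  ring

theorem half_int (h2 : p ≠ 2) : Dv p 0 (1/2:ℚ) := by
  have := Dv.one.div_unit (val_two h2)
  exact this

section
variable (h2 : p ≠ 2) (h3 : p ≠ 3) {h : ℕ} (hh : p = 2*h+1)
include h2 hh

theorem cph : (p:ℚ) = 2*h+1 := by rw [hh]; push_cast; ring

theorem q_num (j : ℕ) : Q3 p ((j:ℚ) - (-1/2)) ((j:ℚ) - h) ((j:ℚ) - (h+p : ℕ)) := by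
  have e := cph h2 hh
  refine Q3.aff (v := -1/2) ?_ ?_ ?_ ?_
  · exact Dv_eq (by ring) ((Dv.nat (p := p) j).add (half_int h2))
  · exact Dv_eq (by ring) (half_int (p := p) h2).neg
  · rw [e]; ring
  · push_cast; rw [e]; ring

include h3
theorem q_den (j : ℕ) : Q3 p (2 - 2*(-1/2) + 3*(j:ℚ)) (2 - 2*(h:ℚ) + 3*(j:ℚ)) (2 - 2*((h+p : ℕ):ℚ) + 3*(j:ℚ)) := by
  have e := cph h2 hh
  refine Q3.aff (v := -1) ?_ ?_ ?_ ?_
  · have := Dv.nat (p := p) (3*j+3)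
    push_cast at this
    exact Dv_eq (by ring) this
  · exact Dv.one.neg
  · rw [e]; ring
  · push_cast; rw [e]; ring

theorem unit_fact {k : ℕ} (hk : k < p) : (k.factorial : ℚ) ≠ 0 ∧ padicValRat p (k.factorial : ℚ) = 0 := by
  constructor
  · positivity
  · apply unit_nat
    rw [hp.out.dvd_factorial]
    omega

theorem unit_den (k : ℕ) (hk : k < p) : (∏ j ∈ range k, (2 - 2*(-1/2) + 3*(j:ℚ))) ≠ 0 ∧
    padicValRat p (∏ j ∈ range k, (2 - 2*(-1/2) + 3*(j:ℚ))) = 0 := by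
  have e : ∏ j ∈ range k, (2 - 2*(-1/2) + 3*(j:ℚ)) = ((3^k * k.factorial : ℕ) : ℚ) := by
    induction k with
    | zero => simp
    | succ k ih =>
      rw [prod_range_succ, ih (by omega), Nat.factorial_succ]
      push_cast
      ring
  rw [e]
  constructor
  · positivity
  · apply unit_nat
    intro hd
    rcases (hp.out.dvd_mul).1 hd with hd | hd
    · exact h3 ((Nat.prime_dvd_prime_iff_eq hp.out Nat.prime_three).1 (hp.out.dvd_of_dvd_pow hd))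
    · rw [hp.out.dvd_factorial] at hd
      omega

/-- denominators -/
theorem q_dens {k : ℕ} (hk : k < p) : Q3 p ((k.factorial : ℚ) * ∏ j ∈ range k, (2 - 2*(-1/2) + 3*(j:ℚ)))⁻¹
    ((k.factorial : ℚ) * ∏ j ∈ range k, (2 - 2*(h:ℚ) + 3*(j:ℚ)))⁻¹
    ((k.factorial : ℚ) * ∏ j ∈ range k, (2 - 2*((h+p : ℕ):ℚ) + 3*(j:ℚ)))⁻¹ := by
  have u1 := unit_fact (p := p) h2 h3 hh hk
  have u2 := unit_den (p := p) h2 h3 hh k hk
  refine Q3.inv ((Q3.const (Dv.nat _)).mul (Q3.prod _ _ _ _ fun j _ => q_den h2 h3 hh j)) (mul_ne_zero u1.1 u2.1) ?_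
  rw [padicValRat.mul u1.1 u2.1, u1.2, u2.2, add_zero]

theorem q_tm {k : ℕ} (hk : k < p) : Q3 p (tm (-1/2) k) (tm h k) (tm ((h+p : ℕ):ℚ) k) := by
  unfold tm
  rw [div_eq_mul_inv, div_eq_mul_inv, div_eq_mul_inv]
  exact (Q3.prod _ _ _ _ fun j _ => q_num h2 hh j).mul (q_dens h2 h3 hh hk)

theorem q_F : Q3 p (∑ k ∈ range p, tm (-1/2) k) (FF h) (FF (h+p)) := by
  have e1 : FF h = ∑ k ∈ range p, tm (h:ℚ) k := by
    have := ext_sum (m := h) (K := p) (by omega) (fun _ => 1)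
    simp only [one_mul] at this
    exact this.symm
  have e2 : FF (h+p) = ∑ k ∈ range p, tm ((h+p:ℕ):ℚ) k := by
    have := ext_sum (m := h+p) (K := p) (by have := hp.out.two_le; omega) (fun _ => 1)
    simp only [one_mul] at this
    exact this.symm
  rw [e1, e2]
  exact Q3.sum _ _ _ _ fun k hk => q_tm h2 h3 hh (mem_range.1 hk)

theorem q_w (k : ℕ) : Q3 p (-1/2 - (k:ℚ)) ((h:ℚ) - k) (((h+p : ℕ):ℚ) - k) := by
  have e := cph h2 hh
  refine Q3.aff (v := 1/2) ?_ ?_ ?_ ?_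
  · exact Dv_eq (by ring) ((Dv.nat (p := p) k).add (half_int h2)).neg
  · exact half_int h2
  · rw [e]; ring
  · push_cast; rw [e]; ring

theorem q_L : Q3 p (∑ k ∈ range p, (-1/2 - (k:ℚ)) * tm (-1/2) k) (LL h) (LL (h+p)) := by
  have e1 : LL h = ∑ k ∈ range p, ((h:ℚ)-k) * tm (h:ℚ) k :=
    (ext_sum (m := h) (K := p) (by omega) (fun k => (h:ℚ)-k)).symm
  have e2 : LL (h+p) = ∑ k ∈ range p, (((h+p:ℕ):ℚ)-k) * tm ((h+p:ℕ):ℚ) k :=
    (ext_sum (m := h+p) (K := p) (by have := hp.out.two_le; omega) (fun k => ((h+p:ℕ):ℚ)-k)).symm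
  rw [e1, e2]
  exact Q3.sum _ _ _ _ fun k hk => (q_w h2 h3 hh k).mul (q_tm h2 h3 hh (mem_range.1 hk))

theorem q_winv {k : ℕ} (hk : k < p) (hkh : k ≠ h) : Q3 p (-1/2 - (k:ℚ))⁻¹ ((h:ℚ) - k)⁻¹ (((h+p : ℕ):ℚ) - k)⁻¹ := by
  have e : (-1/2 - (k:ℚ)) = -(((2*k+1 : ℕ) : ℚ)/2) := by push_cast; ring
  have hnd : ¬ p ∣ 2*k+1 := by
    rintro ⟨c, hc⟩
    have : c < 2 := by
      by_contra hcc
      have : p * 2 ≤ p * c := Nat.mul_le_mul_left _ (by omega)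
      omega
    interval_cases c <;> omega
  refine (q_w h2 h3 hh k).inv ?_ ?_
  · rw [e]
    have : ((2*k+1 : ℕ) : ℚ) ≠ 0 := by positivity
    simp only [ne_eq, neg_eq_zero, div_eq_zero_iff, not_or]
    exact ⟨this, by norm_num⟩
  · rw [e, padicValRat.neg, padicValRat.div (by positivity) (by norm_num), unit_nat hnd, val_two h2, sub_zero]

/-- the singular term -/
def eh (h : ℕ) (m : ℚ) : ℚ := -(h:ℚ) * ((∏ j ∈ (range (2*h)).erase h, ((j:ℚ) - m)) *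
  ((h.factorial : ℚ) * ∏ j ∈ range h, (2 - 2*m + 3*(j:ℚ)))⁻¹)

omit h2 h3 in
theorem eh_eq {m : ℚ} (h1 : 1 ≤ h) (hm : m - h ≠ 0) : (h:ℚ)/(m-h) * tm m h = eh h m := by
  unfold eh tm
  rw [← mul_prod_erase (range (2*h)) _ (mem_range.2 (show h < 2*h by omega))]
  rw [div_eq_mul_inv _ ((h.factorial : ℚ) * _)]
  generalize (∏ j ∈ (range (2*h)).erase h, ((j:ℚ) - m)) = x
  generalize ((h.factorial : ℚ) * ∏ j ∈ range h, (2 - 2*m + 3*(j:ℚ)))⁻¹ = y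
  field_simp
  ring

theorem q_eh : Q3 p (eh h (-1/2)) (eh h h) (eh h ((h+p:ℕ):ℚ)) := by
  unfold eh
  exact (Q3.const (Dv.nat h).neg).mul ((Q3.prod _ _ _ _ fun j _ => q_num h2 hh j).mul (q_dens h2 h3 hh (by omega)))

theorem q_N (h1 : 1 ≤ h) : Q3 p (∑ k ∈ range p, (k:ℚ)/(-1/2 - (k:ℚ)) * tm (-1/2) k) (NN h + eh h h) (NN (h+p)) := by
  have hmem : h ∈ range p := mem_range.2 (by omega)
  have e := cph h2 hh
  have e0 : ∑ k ∈ range p, (k:ℚ)/(-1/2 - (k:ℚ)) * tm (-1/2) k =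
      ∑ k ∈ (range p).erase h, (k:ℚ)/(-1/2 - (k:ℚ)) * tm (-1/2) k + eh h (-1/2) := by
    rw [← add_sum_erase _ _ hmem, add_comm, eh_eq (p := p) hh h1]
    intro h0
    have : (0:ℚ) ≤ (h:ℚ) := by positivity
    linarith
  have e1 : NN h = ∑ k ∈ (range p).erase h, (k:ℚ)/((h:ℚ) - k) * tm (h:ℚ) k := by
    have := (ext_sum (m := h) (K := p) (by omega) (fun k => (k:ℚ)/((h:ℚ)-k)))
    rw [← add_sum_erase _ _ hmem, sub_self, div_zero, zero_mul, zero_add] at this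
    exact this.symm
  have e2 : NN (h+p) = ∑ k ∈ (range p).erase h, (k:ℚ)/(((h+p:ℕ):ℚ) - k) * tm ((h+p:ℕ):ℚ) k + eh h ((h+p:ℕ):ℚ) := by
    have := (ext_sum (m := h+p) (K := p) (by omega) (fun k => (k:ℚ)/(((h+p:ℕ):ℚ)-k)))
    rw [← add_sum_erase _ _ hmem, eh_eq (p := p) hh h1] at this
    · unfold NN
      rw [← this]
      ring
    · push_cast
      rw [add_sub_cancel_left, e]
      positivity
  rw [e0, e1, e2]
  refine Q3.add (Q3.sum _ _ _ _ fun k hk => ?_) (q_eh h2 h3 hh)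
  rw [mem_erase, mem_range] at hk
  rw [div_eq_mul_inv, div_eq_mul_inv, div_eq_mul_inv]
  exact ((Q3.const (Dv.nat k)).mul (q_winv h2 h3 hh hk.2 hk.1)).mul (q_tm h2 h3 hh hk.2)

end

end

end Pool.Agent.N926.F37
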