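import Pool.Agent.N926.F37.C

/-! the first question -/

set_option autoImplicit false
set_option linter.unusedVariables false
set_option linter.unusedSectionVars false

namespace Pool.Agent.N926.F37

open Finset Pool.Agent.N926.Sup2 Pool.Agent.N926.Sup Pool.Agent.N926.F54

theorem tm_succ (m : ℚ) (k : ℕ) : tm m (k+1) = tm m k * (((2*k:ℕ):ℚ)-m) * (((2*k+1:ℕ):ℚ)-m) / (((k:ℚ)+1) * (2-2*m+3*(k:ℚ))) := by
  unfold tm
  rw [show 2*(k+1) = 2*k+1+1 by ring, prod_range_succ, prod_range_succ, prod_range_succ, Nat.factorial_succ]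
  push_cast
  rw [div_mul_eq_mul_div, div_mul_eq_mul_div, div_div]
  congr 1
  ring

theorem choose4 (k : ℕ) : (((4*k).choose (2*k) : ℕ):ℚ) * (((2*k).choose k : ℕ):ℚ) =
    ((4*k).factorial : ℚ) / (((2*k).factorial : ℚ) * (k.factorial : ℚ)^2) := by
  rw [Nat.cast_choose ℚ (by omega : 2*k ≤ 4*k), Nat.cast_choose ℚ (by omega : k ≤ 2*k),
    show 4*k-2*k = 2*k by omega, show 2*k-k = k by omega]
  have h1 : ((2*k).factorial : ℚ) ≠ 0 := by positivity
  have h2 : (k.factorial : ℚ) ≠ 0 := by positivity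
  field_simp

theorem tm_half (k : ℕ) : tm (-1/2) k = (((4*k).choose (2*k) : ℕ):ℚ) * (((2*k).choose k : ℕ):ℚ) / 48^k := by
  rw [choose4]
  induction k with
  | zero => simp [tm_zero]
  | succ k ih =>
    rw [tm_succ, ih, show 4*(k+1) = 4*k+1+1+1+1 by ring, show 2*(k+1) = 2*k+1+1 by ring,
      Nat.factorial_succ, Nat.factorial_succ, Nat.factorial_succ, Nat.factorial_succ,
      Nat.factorial_succ (2*k+1), Nat.factorial_succ (2*k), Nat.factorial_succ k, pow_succ]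
    push_cast
    have h1 : ((2*k).factorial : ℚ) ≠ 0 := by positivity
    have h2 : (k.factorial : ℚ) ≠ 0 := by positivity
    have h3 : (k:ℚ)+1 ≠ 0 := by positivity
    have h4 : (2*(k:ℚ)+1) ≠ 0 := by positivity
    have h5 : (2*(k:ℚ)+1+1) ≠ 0 := by positivity
    have h6 : (2-2*(-1/2)+3*(k:ℚ)) = 3*((k:ℚ)+1) := by ring
    rw [h6]
    field_simp
    ring

theorem choose_up (k : ℕ) : (((4*k).choose (2*k+1) : ℕ):ℚ) = (((4*k).choose (2*k) : ℕ):ℚ) * (2*k) / (2*k+1) := by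
  have h := Nat.choose_succ_right_eq (4*k) (2*k)
  rw [show 4*k-2*k = 2*k by omega] at h
  have h' : (((4*k).choose (2*k+1) : ℕ):ℚ) * (2*k+1) = (((4*k).choose (2*k) : ℕ):ℚ) * (2*k) := by
    have : (((4*k).choose (2*k+1) * (2*k+1) : ℕ):ℚ) = (((4*k).choose (2*k) * (2*k) : ℕ):ℚ) := by rw [h]
    push_cast at this ⊢
    exact this
  rw [eq_div_iff (by positivity)]
  exact h'

/-- the sum of the first question -/
def AA (p : ℕ) : ℚ := ∑ k ∈ range p, (((4*k).choose (2*k+1) : ℕ):ℚ) * (((2*k).choose k : ℕ):ℚ) / 48^k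

theorem AA_eq (p : ℕ) : AA p = -∑ k ∈ range p, (k:ℚ)/(-1/2 - (k:ℚ)) * tm (-1/2) k := by
  unfold AA
  rw [← sum_neg_distrib]
  refine sum_congr rfl fun k _ => ?_
  rw [tm_half, choose_up]
  have h1 : (2*(k:ℚ)+1) ≠ 0 := by positivity
  have h2 : (-1/2 - (k:ℚ)) = -((2*(k:ℚ)+1)/2) := by ring
  rw [h2]
  field_simp

theorem prod_er (h : ℕ) (h1 : 1 ≤ h) : ∏ j ∈ (range (2*h)).erase h, ((j:ℚ) - h) = (-1)^h * (h.factorial : ℚ) * ((h-1).factorial : ℚ) := by
  have e : (range (2*h)).erase h = (range h) ∪ (Finset.Ico (h+1) (2*h)) := by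
    ext j; simp only [mem_erase, mem_range, mem_union, mem_Ico]; omega
  have d : Disjoint (range h) (Finset.Ico (h+1) (2*h)) := by
    rw [Finset.disjoint_left]; intro j; simp only [mem_range, mem_Ico]; omega
  rw [e, prod_union d]
  congr 1
  · have hf : (h.factorial : ℚ) = ∏ l ∈ range h, ((l:ℚ)+1) := by
      rw [← Finset.prod_range_add_one_eq_factorial]; push_cast; rfl
    rw [hf, ← prod_range_reflect (fun l : ℕ => (l:ℚ)+1)]
    have : (-1:ℚ)^h = ∏ l ∈ range h, (-1:ℚ) := by rw [prod_const, card_range]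
    rw [this, ← prod_mul_distrib]
    refine prod_congr rfl fun j hj => ?_
    rw [mem_range] at hj
    rw [cast_refl hj]
    ring
  · rw [Finset.prod_Ico_eq_prod_range]
    have hf : ((h-1).factorial : ℚ) = ∏ l ∈ range (h-1), ((l:ℚ)+1) := by
      rw [← Finset.prod_range_add_one_eq_factorial]; push_cast; rfl
    rw [hf, show 2*h-(h+1) = h-1 by omega]
    refine prod_congr rfl fun j hj => ?_
    push_cast
    ring

theorem eh_val {p h : ℕ} (hh : p = 2*h+1) (h1 : 1 ≤ h) : eh h (h:ℚ) = -((-1)^h / (3^h * PR p (1/3) 0 h)) := by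
  unfold eh
  rw [prod_er h h1]
  have s := seg (p := p) (c := 1/3) (a := 3) (m := 0) (k := h) (fun j => 2 - 2*(h:ℚ) + 3*(j:ℚ)) (by
    intro l _
    rw [show ((p:ℕ):ℚ) = 2*h+1 by rw [hh]; push_cast; ring]
    push_cast; ring)
  rw [zero_add, Nat.factorial_zero, Nat.cast_one, mul_one] at s
  rw [s]
  have hf : (h.factorial : ℚ) = h * ((h-1).factorial : ℚ) := by
    obtain ⟨l, rfl⟩ : ∃ l, h = l+1 := ⟨h-1, by omega⟩
    rw [Nat.factorial_succ]; push_cast; rfl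
  have f1 : (h.factorial : ℚ) ≠ 0 := by positivity
  have f2 : ((h-1).factorial : ℚ) ≠ 0 := by positivity
  have f3 : (h:ℚ) ≠ 0 := by positivity
  rcases eq_or_ne (PR p (1/3) 0 h) 0 with h0 | h0
  · rw [h0]; simp
  · rw [hf] at f1 ⊢
    field_simp

section
variable {p : ℕ} [hp : Fact p.Prime] {i : ℕ}

theorem LR_congr {a w v : ℚ} (h : LR p a w) (hv : Dv p 1 (w - v)) : LR p a v := by
  refine ⟨?_, ?_⟩
  · exact Dv_eq (by ring) (h.1.add ((Dv.p1.mul hv).mono (by norm_num : (2:ℤ) ≤ 1+1)))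
  · exact Dv_eq (by ring) (h.2.sub (hv.mono (by norm_num : (0:ℤ) ≤ 1)))

theorem NE1 (h2 : p ≠ 2) (h3 : p ≠ 3) (hi : p = 6*i+1) (i1 : 1 ≤ i) : Dv p 2 (NN (3*i) + eh (3*i) ((3*i:ℕ):ℚ)) := by
  obtain ⟨q1, q2, q3, q4⟩ := L_int (p := p) h2 h3
  have l1 := PR_LR (p := p) q1 (m := i) (k := i) (by omega)
  have l2 := PR_LR (p := p) q1 (m := 2*i) (k := i) (by omega)
  have l3 := PR_LR (p := p) q2 (m := 2*i) (k := i) (by omega)
  have l4 := PR_LR (p := p) q3 (m := 0) (k := i) (by omega)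
  have l0 := PR_LR (p := p) q1 (m := 0) (k := 3*i) (by omega)
  have e1 := s1 hi
  have e2 := s2 hi
  have e3 := s3 hi
  have e4 := s4 hi
  have g1 := f1 i
  have g2 := f2 i
  have u1 := l1.unit.1
  have u2 := l2.unit.1
  have u3 := l3.unit.1
  have u4 := l4.unit.1
  have u0 := l0.unit.1
  rw [eh_val (p := p) (by omega) (by omega), NN0 i i1]
  have hN : ∏ l ∈ range i, (-(3*(3*(l:ℚ)+1)*(l+1))/(2*(6*l+1)*(3*l+2))) =
      (-(3/2))^i * (A3 i * (i.factorial:ℚ) / (G6 i * B3 i)) := by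
    have hf : (i.factorial : ℚ) = ∏ l ∈ range i, ((l:ℚ)+1) := by
      rw [← Finset.prod_range_add_one_eq_factorial]; push_cast; rfl
    unfold A3 G6 B3
    rw [hf, ← prod_mul_distrib, ← prod_mul_distrib, ← prod_div_distrib]
    have : (-(3/2):ℚ)^i = ∏ l ∈ range i, (-(3/2):ℚ) := by rw [prod_const, card_range]
    rw [this, ← prod_mul_distrib]
    refine prod_congr rfl fun l _ => ?_
    have a1 : (6*(l:ℚ)+1) ≠ 0 := by positivity
    have a2 : (3*(l:ℚ)+2) ≠ 0 := by positivity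
    field_simp
  rw [hN]
  have hrel := H_rel h2 hi i1
  have k1 := l3.div (l2.mul l4)
  have k2 := l2.div l0
  have hv : LR p (PR p (1/2) (2*i) i / (PR p (1/3) (2*i) i * PR p (1/6) 0 i)) (-(1/3) * (Hs 1 (2*i+i) - Hs 1 (2*i)) - -(1/3) * (Hs 1 (0+3*i) - Hs 1 0)) := by
    refine LR_congr k1 ?_
    have := q3.mul0' hrel
    refine Dv_eq ?_ this
    rw [show 2*i+i = 3*i by ring, zero_add, zero_add, Hs_zero]
    ring
  have hd : Dv p 2 (PR p (1/2) (2*i) i / (PR p (1/3) (2*i) i * PR p (1/6) 0 i) - PR p (1/3) (2*i) i / PR p (1/3) 0 (3*i)) :=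
    Dv_eq (by ring) (hv.1.sub k2.1)
  refine Dv_eq ?_ (l1.int.mul0' hd)
  have f1 : (i.factorial : ℚ) ≠ 0 := by positivity
  have f2 : ((2*i).factorial : ℚ) ≠ 0 := by positivity
  have f3 : ((3*i).factorial : ℚ) ≠ 0 := by positivity
  generalize (i.factorial : ℚ) = F1 at *
  generalize ((2*i).factorial : ℚ) = F2 at *
  generalize ((3*i).factorial : ℚ) = F3 at *
  generalize PR p (1/3) i i = P1 at *
  generalize PR p (1/3) (2*i) i = P2 at *
  generalize PR p (1/2) (2*i) i = P3 at *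
  generalize PR p (1/6) 0 i = P4 at *
  generalize PR p (1/3) 0 (3*i) = P0 at *
  have r1 : A3 i = (-3)^i * F2 * P1 / F1 := by rw [eq_div_iff f1]; exact e1
  have r2 : B3 i = 3^i * F3 * P2 / F2 := by rw [eq_div_iff f2]; exact e2
  have r3 : O2 i = (-2)^i * F3 * P3 / F2 := by rw [eq_div_iff f2]; exact e3
  rw [r1, r2] at g1
  rw [r3] at g2
  rw [r1, e4, r2]
  have p3 : (3:ℚ)^i ≠ 0 := by positivity
  have p2 : (2:ℚ)^i ≠ 0 := by positivity
  have x1 : (-3:ℚ)^i = (-1)^i * 3^i := by rw [← mul_pow]; norm_num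
  have x2 : (-2:ℚ)^i = (-1)^i * 2^i := by rw [← mul_pow]; norm_num
  have x6 : (-6:ℚ)^i = (-1)^i * (2^i * 3^i) := by rw [← mul_pow, ← mul_pow]; norm_num
  have x7 : (-(3/2):ℚ)^i = (-1)^i * (3^i / 2^i) := by rw [← div_pow, ← mul_pow]; norm_num
  have x8 : (3:ℚ)^(3*i) = (3^i)^3 := by rw [mul_comm 3 i, pow_mul]
  have x9 : (-1:ℚ)^(3*i) = (-1)^i := by rw [pow_mul]; norm_num
  have s1 : (-1:ℚ)^i * (-1)^i = 1 := by rw [← mul_pow]; norm_num
  have s0 : (-1:ℚ)^i ≠ 0 := by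
    intro h; rw [h] at s1; norm_num at s1
  rw [x1] at g1 ⊢
  rw [x2] at g2
  rw [x6, x7, x8, x9]
  generalize (-1:ℚ)^i = σ at *
  generalize (3:ℚ)^i = t3 at *
  generalize (2:ℚ)^i = t2 at *
  have hB : σ * t3^3 * (P1 * P2) = 1 := by
    have a : F3 * (σ * t3^3 * (P1 * P2)) = F3 * 1 := by
      rw [mul_one]
      conv_rhs => rw [← g1]
      field_simp
    exact mul_left_cancel₀ f3 a
  have hC : F2^2 = σ * t2^2 * F1 * F3 * P3 := by
    have a : F2 * F2 = F2 * (σ * t2 * F3 * P3 / F2 * (t2 * F1)) := by rw [g2]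
    rw [sq, a]
    field_simp
  have k5 : σ * (t3/t2) * (σ * t3 * F2 * P1 / F1 * F1 / (σ * (t2 * t3) * F1 * P4 * (t3 * F3 * P2 / F2))) = P1 * (P3 / (P2 * P4)) := by
    have : σ * (t3/t2) * (σ * t3 * F2 * P1 / F1 * F1 / (σ * (t2 * t3) * F1 * P4 * (t3 * F3 * P2 / F2))) = σ * F2^2 * P1 / (t2^2 * F1 * F3 * P2 * P4) := by
      field_simp
    rw [this, hC]
    field_simp
    linear_combination s1
  have k6 : σ / (t3^3 * P0) = P1 * (P2 / P0) := by
    rw [mul_div_assoc', div_eq_div_iff (mul_ne_zero (pow_ne_zero _ p3) u0) u0]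
    have : σ = P1 * P2 * t3^3 := by linear_combination (-σ) * hB + (P1*P2*t3^3) * s1
    rw [this]; ring
  rw [k5, k6]
  ring

end

end Pool.Agent.N926.F37
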