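import Pool.Agent.N926.F37.D

/-! the first question, primes `6 i + 5` -/

set_option autoImplicit false
set_option linter.unusedVariables false
set_option linter.unusedSectionVars false

namespace Pool.Agent.N926.F37

open Finset Pool.Agent.N926.Sup2 Pool.Agent.N926.Sup Pool.Agent.N926.F54

def C4 (i : ℕ) : ℚ := ∏ j ∈ range i, (3*(j:ℚ)+4)
def C5 (i : ℕ) : ℚ := ∏ j ∈ range i, (3*(j:ℚ)+5)
def G5 (i : ℕ) : ℚ := ∏ j ∈ range i, (6*(j:ℚ)+5)

section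
variable {p i : ℕ} (hi : p = 6*i+5)
include hi

theorem cp5 : (p:ℚ) = 6*i+5 := by rw [hi]; push_cast; ring

theorem t1 : C5 i * (i.factorial : ℚ) = (-3)^i * ((2*i).factorial : ℚ) * PR p (1/3) i i := by
  have h := seg (p := p) (c := 1/3) (a := -3) (m := i) (k := i) (fun l => 3*((i-1-l:ℕ):ℚ)+5) (by
    intro l hl
    rw [cast_refl hl, cp5 hi]; ring)
  rw [← two_mul] at h
  unfold C5
  rw [refl_prod (fun j => 3*(j:ℚ)+5), ← h]

theorem t2 : C4 i * ((2*i+2).factorial : ℚ) = 3^i * ((3*i+2).factorial : ℚ) * PR p (1/3) (2*i+2) i := by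
  have h := seg (p := p) (c := 1/3) (a := 3) (m := 2*i+2) (k := i) (fun l => 3*(l:ℚ)+4) (by
    intro l hl
    rw [cp5 hi]; push_cast; ring)
  rw [show 2*i+2+i = 3*i+2 by ring] at h
  unfold C4
  rw [← h]

theorem t3 : O2 i * ((2*i+2).factorial : ℚ) = (-2)^i * ((3*i+2).factorial : ℚ) * PR p (1/2) (2*i+2) i := by
  have h := seg (p := p) (c := 1/2) (a := -2) (m := 2*i+2) (k := i) (fun l => 2*((i-1-l:ℕ):ℚ)+1) (by
    intro l hl
    rw [cast_refl hl, cp5 hi]; push_cast; ring)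
  rw [show 2*i+2+i = 3*i+2 by ring] at h
  unfold O2
  rw [refl_prod (fun j => 2*(j:ℚ)+1), ← h]

theorem t4 : G5 i = (-6)^i * (i.factorial : ℚ) * PR p (1/6) 0 i := by
  have h := seg (p := p) (c := 1/6) (a := -6) (m := 0) (k := i) (fun l => 6*((i-1-l:ℕ):ℚ)+5) (by
    intro l hl
    rw [cast_refl hl, cp5 hi]; push_cast; ring)
  rw [zero_add, Nat.factorial_zero, Nat.cast_one, mul_one] at h
  unfold G5
  rw [refl_prod (fun j => 6*(j:ℚ)+5), ← h]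

end

theorem f1' (i : ℕ) : 2 * (C4 i * C5 i * (3^i * (i.factorial : ℚ))) = ((3*i+2).factorial : ℚ) := by
  unfold C4 C5
  induction i with
  | zero => simp [Nat.factorial]
  | succ i ih =>
    rw [prod_range_succ, prod_range_succ, show 3*(i+1)+2 = 3*i+2+1+1+1 by ring, Nat.factorial_succ,
      Nat.factorial_succ, Nat.factorial_succ, Nat.factorial_succ]
    push_cast
    rw [← ih, pow_succ]
    ring

section
variable {p : ℕ} [hp : Fact p.Prime] {i : ℕ}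

theorem H_rel5 (h2 : p ≠ 2) (hi : p = 6*i+5) : Dv p 1 (Hs 1 i - Hs 1 (2*i+2) - Hs 1 (3*i+2) + 3) := by
  have hh : p = 2*(3*i+2)+1 := by omega
  have d := Hz_dup p h2 hh (i : ZMod p)
  have cz : (6*(i:ZMod p)+5) = 0 := by
    have h0 : ((6*i+5 : ℕ) : ZMod p) = ((p:ℕ) : ZMod p) := by congr 1; exact hi.symm
    rw [ZMod.natCast_self] at h0
    push_cast at h0
    exact h0
  have r := Hz_refl p h2 hh (2*(i:ZMod p)+2)
  have e1 : -1 - (2*(i:ZMod p)+2) = (i:ZMod p) + ((3*i+2:ℕ):ZMod p) := by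
    push_cast
    linear_combination -cz
  rw [e1] at r
  rw [r] at d
  have c1 : (2*(i:ZMod p)) = ((2*i:ℕ):ZMod p) := by push_cast; ring
  have c2 : (2*(i:ZMod p)+2) = ((2*i+2:ℕ):ZMod p) := by push_cast; ring
  rw [c2, c1, Hz_nat p h2, Hz_nat p h2, Hz_nat p h2, Hz_nat p h2] at d
  have b3 : Br p (3:ℚ) (3:ZMod p) := by simpa using Br.ofInt (p := p) 3
  have hb := (((Br_Hs (p := p) 1 i (by omega)).sub (Br_Hs (p := p) 1 (2*i+2) (by omega))).sub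
    (Br_Hs (p := p) 1 (3*i+2) (by omega))).add b3
  refine hb.zero ?_
  have e2 : ∀ n : ℕ, ∑ j ∈ range n, ((((j+1:ℕ) : ZMod p))⁻¹)^1 = hN p n := by
    intro n
    unfold hN
    refine sum_congr rfl fun j _ => ?_
    rw [pow_one]
  rw [e2, e2, e2]
  have s1 : hN p (2*i+2) = hN p (2*i) + (((2*i+1:ℕ) : ZMod p))⁻¹ + (((2*i+2:ℕ) : ZMod p))⁻¹ := by
    rw [show 2*i+2 = 2*i+1+1 by ring, hN_succ, hN_succ]
  have i2 : (((2*i+2:ℕ) : ZMod p))⁻¹ = 3 := by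
    apply inv_eq_of_mul_eq_one_right
    push_cast
    linear_combination cz
  have n2 : (2:ZMod p) ≠ 0 := two_ne p h2
  have i1 : (((2*i+1:ℕ) : ZMod p))⁻¹ = -3 * 2⁻¹ := by
    apply inv_eq_of_mul_eq_one_right
    push_cast
    have : (2:ZMod p) * 2⁻¹ = 1 := mul_inv_cancel₀ n2
    linear_combination (-(2:ZMod p)⁻¹) * cz + this
  have i12 : (2:ZMod p) * (-3 * 2⁻¹) = -3 := by field_simp
  rw [i1, i2] at s1
  linear_combination -d - 2*s1 - i12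

theorem NE5 (h2 : p ≠ 2) (h3 : p ≠ 3) (hi : p = 6*i+5) : Dv p 2 (NN (3*i+2) + eh (3*i+2) ((3*i+2:ℕ):ℚ)) := by
  obtain ⟨q1, q2, q3, q4⟩ := L_int (p := p) h2 h3
  have l1 := PR_LR (p := p) q1 (m := i) (k := i) (by omega)
  have l2 := PR_LR (p := p) q1 (m := 2*i+2) (k := i) (by omega)
  have l3 := PR_LR (p := p) q2 (m := 2*i+2) (k := i) (by omega)
  have l4 := PR_LR (p := p) q3 (m := 0) (k := i) (by omega)
  have l0 := PR_LR (p := p) q1 (m := 0) (k := 3*i+2) (by omega)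
  have lu : LR p (-(9*(2*(i:ℚ)+1)*(i+1))) (1/2) := by
    refine ⟨?_, q2⟩
    refine Dv_eq ?_ ((Dv.p_pow (p := p) 2).mul0 q2).neg
    rw [cp5 hi]; ring
  have e1 := t1 hi
  have e2 := t2 hi
  have e3 := t3 hi
  have e4 := t4 hi
  have g1 := f1' i
  have g2 := f2 i
  have u1 := l1.unit.1
  have u2 := l2.unit.1
  have u3 := l3.unit.1
  have u4 := l4.unit.1
  have u0 := l0.unit.1
  rw [eh_val (p := p) (by omega) (by omega), NN2 i]
  have hN : ∏ l ∈ range i, (-(3*((l:ℚ)+1)*(3*l+5))/(2*(6*l+5)*(3*l+4))) =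
      (-(3/2))^i * (C5 i * (i.factorial:ℚ) / (G5 i * C4 i)) := by
    have hf : (i.factorial : ℚ) = ∏ l ∈ range i, ((l:ℚ)+1) := by
      rw [← Finset.prod_range_add_one_eq_factorial]; push_cast; rfl
    unfold C5 G5 C4
    rw [hf, ← prod_mul_distrib, ← prod_mul_distrib, ← prod_div_distrib]
    have : (-(3/2):ℚ)^i = ∏ l ∈ range i, (-(3/2):ℚ) := by rw [prod_const, card_range]
    rw [this, ← prod_mul_distrib]
    refine prod_congr rfl fun l _ => ?_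
    have a1 : (6*(l:ℚ)+5) ≠ 0 := by positivity
    have a2 : (3*(l:ℚ)+4) ≠ 0 := by positivity
    field_simp
  rw [hN]
  have hrel := H_rel5 h2 hi
  have k1 := l3.div (l2.mul l4)
  have k2 := l2.div (lu.mul l0)
  have hv : LR p (PR p (1/2) (2*i+2) i / (PR p (1/3) (2*i+2) i * PR p (1/6) 0 i)) (-(1/3) * (Hs 1 (2*i+2+i) - Hs 1 (2*i+2)) - (1/2 + -(1/3) * (Hs 1 (0+(3*i+2)) - Hs 1 0))) := by
    refine LR_congr k1 ?_
    have := q3.mul0' hrel
    refine Dv_eq ?_ this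
    rw [show 2*i+2+i = 3*i+2 by ring, zero_add, zero_add, Hs_zero]
    ring
  have hd : Dv p 2 (PR p (1/2) (2*i+2) i / (PR p (1/3) (2*i+2) i * PR p (1/6) 0 i) - PR p (1/3) (2*i+2) i / (-(9*(2*(i:ℚ)+1)*(i+1)) * PR p (1/3) 0 (3*i+2))) :=
    Dv_eq (by ring) (hv.1.sub k2.1)
  refine Dv_eq ?_ (l1.int.mul0' hd).neg
  have w1 : (2*(i:ℚ)+1) ≠ 0 := by positivity
  have w2 : ((i:ℚ)+1) ≠ 0 := by positivity
  have hfac : ((2*i+2).factorial : ℚ) = 2*(i+1)*(2*i+1)*((2*i).factorial : ℚ) := by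
    rw [show 2*i+2 = 2*i+1+1 by ring, Nat.factorial_succ, Nat.factorial_succ]; push_cast; ring
  rw [hfac] at e2 e3
  have f1 : (i.factorial : ℚ) ≠ 0 := by positivity
  have f2 : ((2*i).factorial : ℚ) ≠ 0 := by positivity
  have f3 : ((3*i+2).factorial : ℚ) ≠ 0 := by positivity
  generalize (i.factorial : ℚ) = F1 at *
  generalize ((2*i).factorial : ℚ) = F2 at *
  generalize ((3*i+2).factorial : ℚ) = F3 at *
  generalize PR p (1/3) i i = P1 at *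
  generalize PR p (1/3) (2*i+2) i = P2 at *
  generalize PR p (1/2) (2*i+2) i = P3 at *
  generalize PR p (1/6) 0 i = P4 at *
  generalize PR p (1/3) 0 (3*i+2) = P0 at *
  have wne : 2*((i:ℚ)+1)*(2*i+1)*F2 ≠ 0 := by
    refine mul_ne_zero (mul_ne_zero (mul_ne_zero two_ne_zero w2) w1) f2
  have r1 : C5 i = (-3)^i * F2 * P1 / F1 := by rw [eq_div_iff f1]; exact e1
  have r2 : C4 i = 3^i * F3 * P2 / (2*((i:ℚ)+1)*(2*i+1)*F2) := by rw [eq_div_iff wne]; exact e2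
  have r3 : O2 i = (-2)^i * F3 * P3 / (2*((i:ℚ)+1)*(2*i+1)*F2) := by rw [eq_div_iff wne]; exact e3
  rw [r1, r2] at g1
  rw [r3] at g2
  rw [r1, e4, r2]
  have p3 : (3:ℚ)^i ≠ 0 := by positivity
  have p2 : (2:ℚ)^i ≠ 0 := by positivity
  have x1 : (-3:ℚ)^i = (-1)^i * 3^i := by rw [← mul_pow]; norm_num
  have x2 : (-2:ℚ)^i = (-1)^i * 2^i := by rw [← mul_pow]; norm_num
  have x6 : (-6:ℚ)^i = (-1)^i * (2^i * 3^i) := by rw [← mul_pow, ← mul_pow]; norm_num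
  have x7 : (-(3/2):ℚ)^i = (-1)^i * (3^i / 2^i) := by rw [← div_pow, ← mul_pow]; norm_num
  have x8 : (3:ℚ)^(3*i+2) = 9*(3^i)^3 := by rw [pow_add, mul_comm 3 i, pow_mul]; ring
  have x9 : (-1:ℚ)^(3*i+2) = (-1)^i := by rw [pow_add, pow_mul]; norm_num
  have s1 : (-1:ℚ)^i * (-1)^i = 1 := by rw [← mul_pow]; norm_num
  have s0 : (-1:ℚ)^i ≠ 0 := by
    intro h; rw [h] at s1; norm_num at s1
  rw [x1] at g1 ⊢
  rw [x2] at g2
  rw [x6, x7, x8, x9]
  generalize (-1:ℚ)^i = σ at *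
  generalize (3:ℚ)^i = t3 at *
  generalize (2:ℚ)^i = t2 at *
  have hB : σ * t3^3 * (P1 * P2) = (2*(i:ℚ)+1)*(i+1) := by
    have a : F3 * (σ * t3^3 * (P1 * P2)) = F3 * ((2*(i:ℚ)+1)*(i+1)) := by
      conv_rhs => rw [← g1]
      field_simp
    exact mul_left_cancel₀ f3 a
  have hC : F2^2 * (2*((i:ℚ)+1)*(2*i+1)) = σ * t2^2 * F1 * F3 * P3 := by
    have a : F2 * F2 * (2*((i:ℚ)+1)*(2*i+1)) = F2 * (σ * t2 * F3 * P3 / (2*((i:ℚ)+1)*(2*i+1)*F2) * (t2 * F1)) * (2*((i:ℚ)+1)*(2*i+1)) := by rw [g2]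
    rw [sq, a]
    field_simp
  have k5 : σ * (t3/t2) * (σ * t3 * F2 * P1 / F1 * F1 / (σ * (t2 * t3) * F1 * P4 * (t3 * F3 * P2 / (2*((i:ℚ)+1)*(2*i+1)*F2)))) = P1 * (P3 / (P2 * P4)) := by
    have : σ * (t3/t2) * (σ * t3 * F2 * P1 / F1 * F1 / (σ * (t2 * t3) * F1 * P4 * (t3 * F3 * P2 / (2*((i:ℚ)+1)*(2*i+1)*F2)))) = σ * (F2^2 * (2*((i:ℚ)+1)*(2*i+1))) * P1 / (t2^2 * F1 * F3 * P2 * P4) := by
      field_simp
    rw [this, hC]
    field_simp
    linear_combination s1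
  have k6 : σ / (9*t3^3 * P0) = -(P1 * (P2 / (-(9*(2*(i:ℚ)+1)*(i+1)) * P0))) := by
    have hσ : σ * ((2*(i:ℚ)+1)*(i+1)) = P1 * P2 * t3^3 := by linear_combination (-σ) * hB + (P1*P2*t3^3) * s1
    field_simp
    linear_combination hσ
  rw [k5, k6]
  ring

/-- the first question -/
theorem AA_main (h2 : p ≠ 2) (h3 : p ≠ 3) : Dv p 2 (AA p) := by
  have key : ∀ h : ℕ, p = 2*h+1 → 1 ≤ h → Dv p 2 (NN h + eh h (h:ℚ)) → NN (h+p) = 0 → Dv p 2 (AA p) := by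
    intro h hh h1 hn h0
    have q := (q_N h2 h3 hh h1).final
    rw [h0] at q
    have k := Dv_eq (b := 2 * ∑ k ∈ range p, (k:ℚ)/(-1/2 - (k:ℚ)) * tm (-1/2) k) (by push_cast; ring) ((smul_int 3 hn).sub q)
    rw [AA_eq]
    exact (k.of_unit_mul (val_two h2) (by norm_num)).neg
  have hp2 := hp.out.two_le
  have hodd : p % 2 = 1 := by
    rcases hp.out.eq_two_or_odd with h | h
    · exact absurd h h2
    · exact h
  have hn3 : p % 3 ≠ 0 := by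
    intro h
    have : 3 ∣ p := Nat.dvd_of_mod_eq_zero h
    rcases (Nat.dvd_prime hp.out).1 this with h | h
    · omega
    · exact h3 h.symm
  rcases (by omega : p % 6 = 1 ∨ p % 6 = 5) with h | h
  · obtain ⟨i, hi⟩ : ∃ i, p = 6*i+1 := ⟨p/6, by omega⟩
    have i1 : 1 ≤ i := by omega
    refine key (3*i) (by omega) (by omega) (NE1 h2 h3 hi i1) ?_
    rw [show 3*i+p = 3*(3*i)+1 by omega]
    exact NN1 _
  · obtain ⟨i, hi⟩ : ∃ i, p = 6*i+5 := ⟨p/6, by omega⟩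
    refine key (3*i+2) (by omega) (by omega) (NE5 h2 h3 hi) ?_
    rw [show 3*i+2+p = 3*(3*i+2)+1 by omega]
    exact NN1 _

end

end Pool.Agent.N926.F37
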