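import Pool.Agent.N926.F37.E

/-! the second question -/

set_option autoImplicit false
set_option linter.unusedVariables false
set_option linter.unusedSectionVars false

namespace Pool.Agent.N926.F37

open Finset Pool.Agent.N926.Sup2 Pool.Agent.N926.Sup Pool.Agent.N926.F54

/-- `S_p` -/
def SS (p : ℕ) : ℚ := ∑ k ∈ range p, tm (-1/2) k

/-- `T_p` -/
def TT (p : ℕ) : ℚ := ∑ k ∈ range p, ((k:ℚ)+1) * tm (-1/2) k

theorem TT_eq (p : ℕ) : TT p = SS p / 2 - ∑ k ∈ range p, (-1/2 - (k:ℚ)) * tm (-1/2) k := by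
  unfold TT SS
  rw [eq_sub_iff_add_eq, ← sum_add_distrib, sum_div]
  refine sum_congr rfl fun k _ => ?_
  ring

/-- `PR p 1 0 h = 4^h PR p (1/2) 0 h` -/
theorem s7h {p h : ℕ} (hh : p = 2*h+1) : PR p 1 0 h = 4^h * PR p (1/2) 0 h := by
  have a := prod_neg_x h
  have b := prod_neg_2x h
  have e1 : PR p (1/2) 0 h = ∏ l ∈ range h, (1 - x h l) := by
    unfold PR x
    refine prod_congr rfl fun l _ => ?_
    rw [hh]
    push_cast
    have : ((l:ℚ)+1) ≠ 0 := by positivity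
    field_simp
    ring
  have e2 : PR p 1 0 h = ∏ l ∈ range h, (1 - 2 * x h l) := by
    unfold PR x
    refine prod_congr rfl fun l _ => ?_
    rw [hh]
    push_cast
    have : ((l:ℚ)+1) ≠ 0 := by positivity
    field_simp
    ring
  rw [e1, e2, a, b]
  ring

section
variable {p : ℕ} [hp : Fact p.Prime] {i : ℕ}

theorem FFa (h2 : p ≠ 2) (h3 : p ≠ 3) (hi : p = 6*i+1) (i1 : 1 ≤ i) :
    ∃ a : ℚ, FF (3*i) = CC i * a ∧
      LR p a ((1/2)*Hs 1 i + (1/6)*Hs 1 (2*i) - (1/2)*Hs 1 (3*i)) := by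
  obtain ⟨q1, q2, q3, q4⟩ := L_int (p := p) h2 h3
  have l1 := PR_LR (p := p) q1 (m := i) (k := i) (by omega)
  have l3 := PR_LR (p := p) q2 (m := 2*i) (k := i) (by omega)
  have l4 := PR_LR (p := p) q3 (m := 0) (k := i) (by omega)
  have e1 := s1 hi
  have e3 := s3 hi
  have e4 := s4 hi
  have g2 := f2 i
  have u1 := l1.unit.1
  have u3 := l3.unit.1
  have u4 := l4.unit.1
  have lr := (l1.mul l3).div l4
  refine ⟨PR p (1/3) i i * PR p (1/2) (2*i) i / PR p (1/6) 0 i, ?_, ?_⟩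
  swap
  · refine LR_congr lr ?_
    refine Dv_eq ?_ (Dv.zero 1)
    rw [show i+i = 2*i by ring, show 2*i+i = 3*i by ring, zero_add, Hs_zero]
    ring
  rw [FF0]
  have hN : ∏ l ∈ range i, (-(3*(l:ℚ)+1)/(2*(6*l+1))) = (-(1/2))^i * (A3 i / G6 i) := by
    unfold A3 G6
    rw [← prod_div_distrib]
    have : (-(1/2):ℚ)^i = ∏ l ∈ range i, (-(1/2):ℚ) := by rw [prod_const, card_range]
    rw [this, ← prod_mul_distrib]
    refine prod_congr rfl fun l _ => ?_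
    have a1 : (6*(l:ℚ)+1) ≠ 0 := by positivity
    field_simp
  rw [hN]
  unfold CC
  have f1 : (i.factorial : ℚ) ≠ 0 := by positivity
  have f2 : ((2*i).factorial : ℚ) ≠ 0 := by positivity
  have f3 : ((3*i).factorial : ℚ) ≠ 0 := by positivity
  generalize (i.factorial : ℚ) = F1 at *
  generalize ((2*i).factorial : ℚ) = F2 at *
  generalize ((3*i).factorial : ℚ) = F3 at *
  generalize PR p (1/3) i i = P1 at *
  generalize PR p (1/2) (2*i) i = P3 at *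
  generalize PR p (1/6) 0 i = P4 at *
  have r1 : A3 i = (-3)^i * F2 * P1 / F1 := by rw [eq_div_iff f1]; exact e1
  have r3 : O2 i = (-2)^i * F3 * P3 / F2 := by rw [eq_div_iff f2]; exact e3
  rw [r3] at g2
  rw [r1, e4]
  have p3 : (3:ℚ)^i ≠ 0 := by positivity
  have p2 : (2:ℚ)^i ≠ 0 := by positivity
  have x1 : (-3:ℚ)^i = (-1)^i * 3^i := by rw [← mul_pow]; norm_num
  have x2 : (-2:ℚ)^i = (-1)^i * 2^i := by rw [← mul_pow]; norm_num
  have x6 : (-6:ℚ)^i = (-1)^i * (2^i * 3^i) := by rw [← mul_pow, ← mul_pow]; norm_num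
  have x7 : (-(1/2):ℚ)^i = (-1)^i / 2^i := by rw [← div_pow]; norm_num
  have s1 : (-1:ℚ)^i * (-1)^i = 1 := by rw [← mul_pow]; norm_num
  have s0 : (-1:ℚ)^i ≠ 0 := by
    intro h; rw [h] at s1; norm_num at s1
  rw [x1]
  rw [x2] at g2
  rw [x6, x7]
  generalize (-1:ℚ)^i = σ at *
  generalize (3:ℚ)^i = t3 at *
  generalize (2:ℚ)^i = t2 at *
  have hC : F2^2 = σ * t2^2 * F1 * F3 * P3 := by
    have a : F2 * F2 = F2 * (σ * t2 * F3 * P3 / F2 * (t2 * F1)) := by rw [g2]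
    rw [sq, a]
    field_simp
  have k5 : σ / t2 * (σ * t3 * F2 * P1 / F1 / (σ * (t2 * t3) * F1 * P4)) = σ * F2^2 * P1 / (F2 * t2^2 * F1^2 * P4) := by
    field_simp
  rw [k5, hC]
  field_simp
  linear_combination s1

theorem FFb (h2 : p ≠ 2) (h3 : p ≠ 3) (hi : p = 6*i+1) (i1 : 1 ≤ i) :
    ∃ b : ℚ, FF (3*(3*i)+1) = CC i * b ∧
      LR p b ((1/3)*Hs 1 (2*i) + (2/3)*Hs 1 i) := by
  obtain ⟨q1, q2, q3, q4⟩ := L_int (p := p) h2 h3
  have l2 := PR_LR (p := p) q1 (m := 2*i) (k := i) (by omega)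
  have l5 := PR_LR (p := p) q4 (m := i) (k := 2*i) (by omega)
  have l7 := PR_LR (p := p) Dv.one (m := 0) (k := 3*i) (by omega)
  have e2 := s2 hi
  have e5 := s5 hi
  have e6 := s6 hi
  have e7 := s7 hi
  have u7 := l7.unit.1
  have lr := (l2.mul l5).div l7
  refine ⟨PR p (1/3) (2*i) i * PR p (2/3) i (2*i) / PR p 1 0 (3*i), ?_, ?_⟩
  swap
  · refine LR_congr lr ?_
    refine Dv_eq ?_ (Dv.zero 1)
    rw [show i+2*i = 3*i by ring, show 2*i+i = 3*i by ring, zero_add, Hs_zero]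
    ring
  rw [FF1]
  have hN : ∏ l ∈ range (3*i), (-(3*(l:ℚ)+2)/(6*(2*l+1))) = (-(1/6))^(3*i) * (B3 (3*i) / O2 (3*i)) := by
    unfold B3 O2
    rw [← prod_div_distrib]
    have : (-(1/6):ℚ)^(3*i) = ∏ l ∈ range (3*i), (-(1/6):ℚ) := by rw [prod_const, card_range]
    rw [this, ← prod_mul_distrib]
    refine prod_congr rfl fun l _ => ?_
    have a1 : (2*(l:ℚ)+1) ≠ 0 := by positivity
    field_simp
  rw [hN]
  unfold CC
  have f1 : (i.factorial : ℚ) ≠ 0 := by positivity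
  have f2 : ((2*i).factorial : ℚ) ≠ 0 := by positivity
  have f3 : ((3*i).factorial : ℚ) ≠ 0 := by positivity
  generalize (i.factorial : ℚ) = F1 at *
  generalize ((2*i).factorial : ℚ) = F2 at *
  generalize ((3*i).factorial : ℚ) = F3 at *
  generalize PR p (1/3) (2*i) i = P2 at *
  generalize PR p (2/3) i (2*i) = P5 at *
  generalize PR p (1/2) 0 (3*i) = P6 at *
  generalize PR p 1 0 (3*i) = P7 at *
  have r2 : B3 i = 3^i * F3 * P2 / F2 := by rw [eq_div_iff f2]; exact e2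
  have r5 : B3 (3*i) = 3^i * F3 * P2 / F2 * (9^i * F3 * P5) / F1 := by
    rw [eq_div_iff f1, ← r2]; exact e5
  rw [r5, e6]
  have p3 : (3:ℚ)^i ≠ 0 := by positivity
  have p2 : (2:ℚ)^i ≠ 0 := by positivity
  have x2 : (-2:ℚ)^(3*i) = (-1)^i * (2^i)^3 := by
    rw [← pow_mul, mul_comm i 3, pow_mul, pow_mul, ← mul_pow]; norm_num
  have x5 : (9:ℚ)^i = (3^i)^2 := by rw [← pow_mul, mul_comm i 2, pow_mul]; norm_num
  have x7 : (4:ℚ)^(3*i) = (2^i)^6 := by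
    rw [← pow_mul, mul_comm i 6, pow_mul, pow_mul]; norm_num
  have x8 : (-(1/6):ℚ)^(3*i) = (-1)^i / ((2^i)^3*(3^i)^3) := by
    rw [← pow_mul, ← pow_mul, mul_comm i 3, pow_mul, pow_mul, pow_mul, ← mul_pow, ← div_pow]
    norm_num
  have s1 : (-1:ℚ)^i * (-1)^i = 1 := by rw [← mul_pow]; norm_num
  have s0 : (-1:ℚ)^i ≠ 0 := by
    intro h; rw [h] at s1; norm_num at s1
  rw [x7] at e7
  rw [x2, x5, x8]
  generalize (-1:ℚ)^i = σ at *
  generalize (3:ℚ)^i = t3 at *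
  generalize (2:ℚ)^i = t2 at *
  have k6 : P6 = P7 / t2^6 := by rw [e7]; field_simp
  rw [k6]
  field_simp

theorem SSa (h2 : p ≠ 2) (h3 : p ≠ 3) (hi : p = 6*i+1) (i1 : 1 ≤ i) : Dv p 2 (SS p - CC i * (1 + p * om i)) := by
  obtain ⟨a, ea, la⟩ := FFa h2 h3 hi i1
  obtain ⟨b, eb, lb⟩ := FFb h2 h3 hi i1
  obtain ⟨q1, q2, q3, q4⟩ := L_int (p := p) h2 h3
  have q := (q_F h2 h3 (show p = 2*(3*i)+1 by omega)).final
  rw [show 3*i+p = 3*(3*i)+1 by omega, ea, eb] at q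
  have hrel := H_rel (p := p) h2 hi i1
  have h1 : Dv p 0 (Hs 1 i) := Hs_int (by omega)
  have h22 : Dv p 0 (Hs 1 (2*i)) := Hs_int (by omega)
  have h33 : Dv p 0 (Hs 1 (3*i)) := Hs_int (by omega)
  have key : Dv p 2 (3*a - b - 2*(1+p*om i)) := by
    have a1 := (smul_int 3 la.1).sub lb.1
    have hp1 : Dv p 2 ((p:ℚ) * ((1/2)*(Hs 1 i - Hs 1 (2*i) - Hs 1 (3*i)))) := (Dv.p1.mul (q2.mul0' hrel)).mono (by norm_num)
    have hp2 : Dv p 2 ((p:ℚ)^2 * ((1/3)*Hs 1 i + (2/3)*Hs 1 (2*i) - Hs 1 (3*i))) :=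
      (Dv.p_pow 2).mul0 (((q1.mul0 h1).add (q4.mul0 h22)).sub h33)
    refine Dv_eq ?_ (a1.add (hp1.add hp2))
    unfold om
    have : (p:ℚ) = 6*i+1 := cpi hi
    rw [this]
    push_cast
    ring
  have cint : Dv p 0 (CC i) := by rw [CC_eq]; exact Dv.nat _
  have k2 := (cint.mul0' key).sub q
  refine Dv.of_unit_mul (val_two h2) (by norm_num) (Dv_eq ?_ k2)
  unfold SS
  ring

end

end Pool.Agent.N926.F37
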