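import Pool.Agent.N926.F37.F

/-! the second question, conclusion -/

set_option autoImplicit false
set_option linter.unusedVariables false
set_option linter.unusedSectionVars false

namespace Pool.Agent.N926.F37

open Finset Pool.Agent.N926.Sup2 Pool.Agent.N926.Sup Pool.Agent.N926.F54

section
variable (p : ℕ) [hp : Fact p.Prime] {i : ℕ}

theorem Sc_three (hi : p = 6*i+1) (i1 : 1 ≤ i) : Sc p 1 ≡ 1 [ZMOD 3] := by
  obtain ⟨g, -, hg1, hsum⟩ := enum p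
  have h := hsum (fun x => if x = 0 then 0 else qc p (x^3+1)) (by simp)
  have e1 : ∑ x : ZMod p, (if x = 0 then 0 else qc p (x^3+1)) = Sc p 1 - 1 := by
    unfold Sc
    rw [← add_sum_erase univ _ (mem_univ (0:ZMod p)), ← add_sum_erase univ (fun x : ZMod p => qc p (x^3+1)) (mem_univ (0:ZMod p))]
    have e : ∑ x ∈ univ.erase (0:ZMod p), (if x = 0 then 0 else qc p (x^3+1)) = ∑ x ∈ univ.erase (0:ZMod p), qc p (x^3+1) := by
      refine sum_congr rfl fun x hx => ?_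
      rw [mem_erase] at hx
      rw [if_neg hx.1]
    rw [e, if_pos rfl]
    have : qc p ((0:ZMod p)^3+1) = 1 := by
      rw [show ((0:ZMod p)^3+1) = 1 by ring]; exact qc_one p
    rw [this]; ring
  rw [e1] at h
  have e2 : ∑ n ∈ range (p-1), (if (g:ZMod p)^n = 0 then 0 else qc p (((g:ZMod p)^n)^3+1)) =
      3 * ∑ n ∈ range (2*i), qc p (((g:ZMod p)^n)^3+1) := by
    have e3 : ∀ n : ℕ, (if (g:ZMod p)^n = 0 then 0 else qc p (((g:ZMod p)^n)^3+1)) = qc p (((g:ZMod p)^n)^3+1) := by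
      intro n
      rw [if_neg (pow_ne_zero _ g.ne_zero)]
    rw [sum_congr rfl fun n _ => e3 n, show p-1 = 2*i+2*i+2*i by omega, sum_range_add, sum_range_add]
    have per : ∀ n : ℕ, ((g:ZMod p)^(2*i+n))^3 = ((g:ZMod p)^n)^3 := by
      intro n
      rw [← pow_mul, ← pow_mul, show (2*i+n)*3 = (p-1) + n*3 by omega, pow_add, hg1, one_mul]
    have per2 : ∀ n : ℕ, ((g:ZMod p)^(2*i+2*i+n))^3 = ((g:ZMod p)^n)^3 := by
      intro n
      rw [show 2*i+2*i+n = 2*i+(2*i+n) by ring, per, per]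
    simp only [per, per2]
    ring
  rw [e2] at h
  have : Sc p 1 = 1 + 3 * ∑ n ∈ range (2*i), qc p (((g:ZMod p)^n)^3+1) := by linear_combination h
  rw [this]
  exact (Int.ModEq.symm (by
    rw [Int.modEq_iff_dvd]
    exact ⟨_, by ring⟩))

theorem Sc_val (hi : p = 6*i+1) (i1 : 1 ≤ i) {x y : ℤ} (h : x^2 + 3*y^2 = p) (hx : x % 3 = 1) : Sc p 1 = -(2*x) := by
  have h4 := Sc_four p hi i1 h
  have h3 := Sc_three p hi i1
  have : (Sc p 1 - 2*x) * (Sc p 1 + 2*x) = 0 := by linear_combination h4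
  rcases mul_eq_zero.1 this with h | h
  · exfalso
    have h5 : Sc p 1 = 2*x := by linear_combination h
    rw [h5] at h3
    unfold Int.ModEq at h3
    omega
  · linear_combination h

end

section
variable {p : ℕ} [hp : Fact p.Prime] {i : ℕ}

theorem CC_unit (hi : p = 6*i+1) (i1 : 1 ≤ i) : CC i ≠ 0 ∧ padicValRat p (CC i) = 0 := by
  rw [CC_eq]
  have c3 : ¬ p ∣ (3*i).choose i := choose_unit (by omega) (by omega)
  refine ⟨?_, unit_nat c3⟩
  have := Nat.choose_pos (show i ≤ 3*i by omega)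
  positivity

/-- `C ≡ 2 x (mod p)` -/
theorem C_x (h2 : p ≠ 2) (hi : p = 6*i+1) (i1 : 1 ≤ i) {x y : ℤ} (h : x^2 + 3*y^2 = p) (hx : x % 3 = 1) :
    Dv p 1 (CC i - 2*x) ∧ Dv p 2 (CC i * (1 + p * om i) - (2*x - p / CC i)) := by
  have s := Sc_cong (p := p) h2 hi i1
  rw [Sc_val p hi i1 h hx] at s
  have u := CC_unit hi i1
  have hom : Dv p 0 (om i) := by
    unfold om
    have n := fun n : ℕ => Dv.nat (p := p) n
    have h1 : Dv p 0 (Hs 1 i) := Hs_int (by omega)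
    have h22 : Dv p 0 (Hs 1 (2*i)) := Hs_int (by omega)
    have h33 : Dv p 0 (Hs 1 (3*i)) := Hs_int (by omega)
    have a := ((n (3*i)).mul0 h33).sub ((n i).mul0 h1)
    have b := a.sub ((n (2*i)).mul0 h22)
    exact Dv_eq (by push_cast; ring) b
  have cint : Dv p 0 (CC i) := by rw [CC_eq]; exact Dv.nat _
  have cinv : Dv p 0 (CC i)⁻¹ := inv_unit u.1 u.2
  constructor
  · have k := (s.mono (by norm_num : (1:ℤ) ≤ 2)).sub (Dv.p1.mul0 ((cint.mul0 hom).add cinv))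
    refine Dv_eq ?_ k
    push_cast
    ring
  · refine Dv_eq ?_ s
    push_cast
    ring

theorem x_unit (h2 : p ≠ 2) (hi : p = 6*i+1) (i1 : 1 ≤ i) {x y : ℤ} (h : x^2 + 3*y^2 = p) (hx : x % 3 = 1) :
    (2*(x:ℚ)) ≠ 0 ∧ padicValRat p (2*(x:ℚ)) = 0 := by
  have u := CC_unit hi i1
  have k := (C_x h2 hi i1 h hx).1
  refine unit_of_cong (y := CC i) ?_ u.1 u.2
  exact Dv_eq (by ring) k.neg

/-- `p / C ≡ p / (2x)` -/
theorem C_inv (h2 : p ≠ 2) (hi : p = 6*i+1) (i1 : 1 ≤ i) {x y : ℤ} (h : x^2 + 3*y^2 = p) (hx : x % 3 = 1) :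
    Dv p 2 (p / CC i - p/(2*(x:ℚ))) := by
  have u := CC_unit hi i1
  have v := x_unit h2 hi i1 h hx
  have k := (C_x h2 hi i1 h hx).1
  have k2 := (k.neg.mul0 (inv_unit u.1 u.2)).mul0 (inv_unit v.1 v.2)
  have k3 := Dv.p1.mul k2
  refine Dv_eq ?_ (k3.mono (by norm_num : (2:ℤ) ≤ 1+1))
  have a := u.1
  have b := v.1
  have b' : (x:ℚ) ≠ 0 := by
    intro h; apply b; rw [h]; ring
  field_simp
  ring

theorem S_main (h2 : p ≠ 2) (h3 : p ≠ 3) (hi : p = 6*i+1) (i1 : 1 ≤ i) {x y : ℤ} (h : x^2 + 3*y^2 = p) (hx : x % 3 = 1) :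
    Dv p 2 (SS p - (2*(x:ℚ) - p/(2*(x:ℚ)))) := by
  have k1 := SSa h2 h3 hi i1
  have k2 := (C_x h2 hi i1 h hx).2
  have k3 := C_inv h2 hi i1 h hx
  refine Dv_eq ?_ ((k1.add k2).sub k3)
  ring

/-- `L(9i+1) ≡ p/C` -/
theorem LL_main (h2 : p ≠ 2) (h3 : p ≠ 3) (hi : p = 6*i+1) (i1 : 1 ≤ i) : Dv p 2 (LL (3*(3*i)+1) - p / CC i) := by
  obtain ⟨q1, q2, q3, q4⟩ := L_int (p := p) h2 h3
  have la := PR_LR (p := p) q1 (m := 0) (k := 2*i-1) (by omega)
  have lb := PR_LR (p := p) q1.neg (m := 0) (k := i) (by omega)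
  have l7 := PR_LR (p := p) Dv.one (m := 0) (k := 3*i) (by omega)
  have l8 : LR p (-(6*(i:ℚ))) (-1) := by
    refine ⟨?_, Dv.one.neg⟩
    refine Dv_eq ?_ (Dv.zero 2)
    rw [cpi hi]; ring
  have lr := ((la.mul lb).div l7).div l8
  have e6 := s6 hi
  have e7 := s7 hi
  have u7 := l7.unit.1
  have u := CC_unit hi i1
  have sa := seg (p := p) (c := 1/3) (a := -3) (m := 0) (k := 2*i-1) (fun l => 3*((2*i-1-1-l:ℕ):ℚ)+4) (by
    intro l hl
    rw [cast_refl hl, cpi hi, Nat.cast_sub (by omega)]; push_cast; ring)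
  have sb := seg (p := p) (c := -(1/3)) (a := 3) (m := 0) (k := i) (fun l => 3*((2*i+l:ℕ):ℚ)+4) (by
    intro l hl
    rw [cpi hi]; push_cast; ring)
  rw [zero_add, Nat.factorial_zero, Nat.cast_one, mul_one] at sa sb
  rw [← refl_prod (fun l => 3*(l:ℚ)+4)] at sa
  have hC4 : C4 (3*i) = ((-3)^(2*i-1) * ((2*i-1).factorial : ℚ) * PR p (1/3) 0 (2*i-1)) * (p * (3^i * (i.factorial : ℚ) * PR p (-(1/3)) 0 i)) := by
    have e : C4 (3*i) = (∏ l ∈ range (2*i-1), (3*(l:ℚ)+4)) * (p * ∏ l ∈ range i, (3*((2*i+l:ℕ):ℚ)+4)) := by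
      unfold C4
      rw [show 3*i = (2*i-1)+1+i by omega, prod_range_add, prod_range_succ, mul_assoc]
      congr 1
      congr 1
      · rw [Nat.cast_sub (by omega), cpi hi]; push_cast; ring
      · refine prod_congr rfl fun l _ => ?_
        rw [show 2*i-1+1+l = 2*i+l by omega]
    rw [e, sa, sb]
  have hN : LL (3*(3*i)+1) = (-(1/6))^(3*i) * (C4 (3*i) / O2 (3*i)) := by
    rw [LL1]
    unfold C4 O2
    rw [← prod_div_distrib]
    have : (-(1/6):ℚ)^(3*i) = ∏ l ∈ range (3*i), (-(1/6):ℚ) := by rw [prod_const, card_range]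
    rw [this, ← prod_mul_distrib]
    refine prod_congr rfl fun l _ => ?_
    have a1 : (2*(l:ℚ)+1) ≠ 0 := by positivity
    field_simp
  have main : LL (3*(3*i)+1) = p / CC i * (PR p (1/3) 0 (2*i-1) * PR p (-(1/3)) 0 i / PR p 1 0 (3*i) / (-(6*(i:ℚ)))) := by
    rw [hN, hC4, e6]
    unfold CC
    have hf : ((2*i).factorial : ℚ) = (2*(i:ℚ)) * ((2*i-1).factorial : ℚ) := by
      obtain ⟨l, hl⟩ : ∃ l, 2*i = l+1 := ⟨2*i-1, by omega⟩
      rw [show 2*i-1 = l by omega, hl, Nat.factorial_succ]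
      have : (2*(i:ℚ)) = ((l+1:ℕ):ℚ) := by rw [← hl]; push_cast; ring
      rw [this]; push_cast; ring
    rw [hf]
    have f1 : (i.factorial : ℚ) ≠ 0 := by positivity
    have f2 : ((2*i-1).factorial : ℚ) ≠ 0 := by positivity
    have f3 : ((3*i).factorial : ℚ) ≠ 0 := by positivity
    have f4 : (i:ℚ) ≠ 0 := by positivity
    generalize (i.factorial : ℚ) = F1 at *
    generalize ((2*i-1).factorial : ℚ) = F2 at *
    generalize ((3*i).factorial : ℚ) = F3 at *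
    generalize PR p (1/3) 0 (2*i-1) = Pa at *
    generalize PR p (-(1/3)) 0 i = Pb at *
    generalize PR p (1/2) 0 (3*i) = P6 at *
    generalize PR p 1 0 (3*i) = P7 at *
    have p3 : (3:ℚ)^i ≠ 0 := by positivity
    have p2 : (2:ℚ)^i ≠ 0 := by positivity
    have x2 : (-2:ℚ)^(3*i) = (-1)^i * (2^i)^3 := by
      rw [← pow_mul, mul_comm i 3, pow_mul, pow_mul, ← mul_pow]; norm_num
    have x5 : (-3:ℚ)^(2*i-1) = -((3^i)^2/3) := by
      have h := pow_succ (-3:ℚ) (2*i-1)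
      have h2' : (-3:ℚ)^(2*i-1+1) = (3^i)^2 := by
        rw [show 2*i-1+1 = 2*i by omega, pow_mul, show ((-3:ℚ)^2) = 3^2 by norm_num, ← pow_mul, mul_comm 2 i, pow_mul]
      rw [h2'] at h
      rw [h]
      ring
    have x7 : (4:ℚ)^(3*i) = (2^i)^6 := by
      rw [← pow_mul, mul_comm i 6, pow_mul, pow_mul]; norm_num
    have x8 : (-(1/6):ℚ)^(3*i) = (-1)^i / ((2^i)^3*(3^i)^3) := by
      rw [← pow_mul, ← pow_mul, mul_comm i 3, pow_mul, pow_mul, pow_mul, ← mul_pow, ← div_pow]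
      norm_num
    have s1 : (-1:ℚ)^i * (-1)^i = 1 := by rw [← mul_pow]; norm_num
    have s0 : (-1:ℚ)^i ≠ 0 := by
      intro h; rw [h] at s1; norm_num at s1
    rw [x7] at e7
    rw [x2, x5, x8]
    generalize (-1:ℚ)^i = σ at *
    generalize (3:ℚ)^i = t3 at *
    generalize (2:ℚ)^i = t2 at *
    have k6 : P6 = P7 / t2^6 := by rw [e7]; field_simp
    rw [k6]
    field_simp
    ring
  rw [main]
  have k := (Dv.p1.mul0 (inv_unit u.1 u.2)).mul lr.one1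
  refine Dv_eq ?_ (k.mono (by norm_num : (2:ℤ) ≤ 1+1))
  ring

theorem T_main (h2 : p ≠ 2) (h3 : p ≠ 3) (hi : p = 6*i+1) (i1 : 1 ≤ i) {x y : ℤ} (h : x^2 + 3*y^2 = p) (hx : x % 3 = 1) :
    Dv p 2 (TT p - x) := by
  have q := (q_L h2 h3 (show p = 2*(3*i)+1 by omega)).final
  rw [show 3*i+p = 3*(3*i)+1 by omega, LL0] at q
  have k1 := S_main h2 h3 hi i1 h hx
  have k2 := LL_main h2 h3 hi i1
  have k3 := C_inv h2 hi i1 h hx
  refine Dv.of_unit_mul (val_two h2) (by norm_num) (Dv_eq ?_ (((k1.add k2).add k3).add q))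
  rw [TT_eq]
  ring

theorem S_five (h2 : p ≠ 2) (h3 : p ≠ 3) (hi : p = 6*i+5) :
    Dv p 2 (SS p - 3*p/(2*(((3*i+3).choose (i+1) : ℕ):ℚ))) := by
  obtain ⟨q1, q2, q3, q4⟩ := L_int (p := p) h2 h3
  have la := PR_LR (p := p) q1 (m := 0) (k := 2*i+1) (by omega)
  have lb := PR_LR (p := p) q1.neg (m := 0) (k := i) (by omega)
  have l7 := PR_LR (p := p) Dv.one (m := 0) (k := 3*i+2) (by omega)
  have l8 : LR p (6*(i:ℚ)+6) 1 := by
    refine ⟨?_, Dv.one⟩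
    refine Dv_eq ?_ (Dv.zero 2)
    rw [cp5 hi]; ring
  have lr := ((la.mul lb).div l7).div l8
  have hh : p = 2*(3*i+2)+1 := by omega
  have e7 := s7h hh
  have u7 := l7.unit.1
  have cu : ¬ p ∣ (3*i+3).choose (i+1) := choose_unit (by omega) (by omega)
  have cne : (((3*i+3).choose (i+1) : ℕ):ℚ) ≠ 0 := by
    have := Nat.choose_pos (show i+1 ≤ 3*i+3 by omega)
    positivity
  have e6 := seg (p := p) (c := 1/2) (a := -2) (m := 0) (k := 3*i+2) (fun l => 2*((3*i+2-1-l:ℕ):ℚ)+1) (by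
    intro l hl
    have : ((3*i+2-1-l : ℕ):ℚ) = ((3*i+2:ℕ):ℚ) - 1 - l := cast_refl (by omega)
    rw [this, cp5 hi]; push_cast; ring)
  have sa := seg (p := p) (c := 1/3) (a := -3) (m := 0) (k := 2*i+1) (fun l => 3*((2*i+1-1-l:ℕ):ℚ)+2) (by
    intro l hl
    have : ((2*i+1-1-l : ℕ):ℚ) = ((2*i+1:ℕ):ℚ) - 1 - l := cast_refl (by omega)
    rw [this, cp5 hi]; push_cast; ring)
  have sb := seg (p := p) (c := -(1/3)) (a := 3) (m := 0) (k := i) (fun l => 3*((2*i+2+l:ℕ):ℚ)+2) (by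
    intro l hl
    rw [cp5 hi]; push_cast; ring)
  rw [zero_add, Nat.factorial_zero, Nat.cast_one, mul_one] at sa sb e6
  rw [← refl_prod (fun l => 3*(l:ℚ)+2)] at sa
  rw [← refl_prod (fun l => 2*(l:ℚ)+1)] at e6
  have hB3 : B3 (3*i+2) = ((-3)^(2*i+1) * ((2*i+1).factorial : ℚ) * PR p (1/3) 0 (2*i+1)) * (p * (3^i * (i.factorial : ℚ) * PR p (-(1/3)) 0 i)) := by
    have e : B3 (3*i+2) = (∏ l ∈ range (2*i+1), (3*(l:ℚ)+2)) * (p * ∏ l ∈ range i, (3*((2*i+2+l:ℕ):ℚ)+2)) := by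
      unfold B3
      rw [show 3*i+2 = (2*i+1)+1+i by omega, prod_range_add, prod_range_succ, mul_assoc]
      congr 1
      congr 1
      rw [cp5 hi]; push_cast; ring
    rw [e, sa, sb]
  have hN : FF (3*(3*i+2)+1) = (-(1/6))^(3*i+2) * (B3 (3*i+2) / O2 (3*i+2)) := by
    rw [FF1]
    unfold B3 O2
    rw [← prod_div_distrib]
    have : (-(1/6):ℚ)^(3*i+2) = ∏ l ∈ range (3*i+2), (-(1/6):ℚ) := by rw [prod_const, card_range]
    rw [this, ← prod_mul_distrib]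
    refine prod_congr rfl fun l _ => ?_
    have a1 : (2*(l:ℚ)+1) ≠ 0 := by positivity
    field_simp
  have main : FF (3*(3*i+2)+1) = -(3*p / (((3*i+3).choose (i+1) : ℕ):ℚ) * (PR p (1/3) 0 (2*i+1) * PR p (-(1/3)) 0 i / PR p 1 0 (3*i+2) / (6*(i:ℚ)+6))) := by
    rw [hN, hB3]
    unfold O2
    rw [e6, Nat.cast_choose ℚ (by omega : i+1 ≤ 3*i+3), show 3*i+3-(i+1) = 2*i+1+1 by omega,
      show 3*i+3 = (3*i+2)+1 by ring, Nat.factorial_succ (3*i+2), Nat.factorial_succ (2*i+1), Nat.factorial_succ i]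
    push_cast
    have f1 : (i.factorial : ℚ) ≠ 0 := by positivity
    have f2 : ((2*i+1).factorial : ℚ) ≠ 0 := by positivity
    have f3 : ((3*i+2).factorial : ℚ) ≠ 0 := by positivity
    have f4 : ((i:ℚ)+1) ≠ 0 := by positivity
    generalize (i.factorial : ℚ) = F1 at *
    generalize ((2*i+1).factorial : ℚ) = F2 at *
    generalize ((3*i+2).factorial : ℚ) = F3 at *
    generalize PR p (1/3) 0 (2*i+1) = Pa at *
    generalize PR p (-(1/3)) 0 i = Pb at *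
    generalize PR p (1/2) 0 (3*i+2) = P6 at *
    generalize PR p 1 0 (3*i+2) = P7 at *
    have p3 : (3:ℚ)^i ≠ 0 := by positivity
    have p2 : (2:ℚ)^i ≠ 0 := by positivity
    have x2 : (-2:ℚ)^(3*i+2) = (-1)^i * (2^i)^3 * 4 := by
      rw [pow_add, ← pow_mul, mul_comm i 3, pow_mul, pow_mul, ← mul_pow]; norm_num
    have x5 : (-3:ℚ)^(2*i+1) = -(3*(3^i)^2) := by
      rw [pow_succ, pow_mul, show ((-3:ℚ)^2) = 3^2 by norm_num, ← pow_mul, mul_comm 2 i, pow_mul]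
      ring
    have x7 : (4:ℚ)^(3*i+2) = (2^i)^6 * 16 := by
      rw [pow_add, ← pow_mul, mul_comm i 6, pow_mul, pow_mul]; norm_num
    have x8 : (-(1/6):ℚ)^(3*i+2) = (-1)^i / ((2^i)^3*(3^i)^3) / 36 := by
      rw [pow_add, ← pow_mul, ← pow_mul, mul_comm i 3, pow_mul, pow_mul, pow_mul, ← mul_pow, ← div_pow]
      norm_num
      ring
    have s1 : (-1:ℚ)^i * (-1)^i = 1 := by rw [← mul_pow]; norm_num
    have s0 : (-1:ℚ)^i ≠ 0 := by
      intro h; rw [h] at s1; norm_num at s1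
    rw [x7] at e7
    rw [x2, x5, x8]
    generalize (-1:ℚ)^i = σ at *
    generalize (3:ℚ)^i = t3 at *
    generalize (2:ℚ)^i = t2 at *
    have k6 : P6 = P7 / (t2^6*16) := by rw [e7]; field_simp
    rw [k6]
    have w1 : (3*(i:ℚ)+2+1) = 3*((i:ℚ)+1) := by ring
    have w2 : (2*(i:ℚ)+1+1) = 2*((i:ℚ)+1) := by ring
    have w3 : (6*(i:ℚ)+6) = 6*((i:ℚ)+1) := by ring
    rw [w1, w2, w3]
    field_simp
    ring
  have q := (q_F h2 h3 hh).final
  rw [show 3*i+2+p = 3*(3*i+2)+1 by omega, FF2, main] at q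
  have k := ((d3.mul0 (inv_unit cne (unit_nat cu))).mul0' (Dv.p1 (p := p))).mul lr.one1
  refine Dv.of_unit_mul (val_two h2) (by norm_num) (Dv_eq ?_ ((k.mono (by norm_num : (2:ℤ) ≤ 1+1)).sub q))
  unfold SS
  ring

end

end Pool.Agent.N926.F37
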